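import Mathlib

set_option autoImplicit false

/-!
# The Virasoro algebra over a field, its Verma modules and their simple quotients

`U K` is the universal enveloping algebra of the Virasoro algebra over the field `K`, presented by
the generators `L n` (`n : ℤ`) and `C` and the relations of the Lie algebra; a module over it is the
same thing as a module over the Lie algebra.
-/

namespace Pool.Agent.Results.MP_b4de2f_al.Disproof

/-- Names of the basis vectors `L n` (`n : ℤ`) and `C` of the Virasoro algebra. -/
inductive Gen : Type
  | L : ℤ → Gen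
  | C : Gen

/-- The binomial coefficient `(m+1 choose 3)`, for an integer `m`. -/
def binom3 (m : ℤ) : ℤ := (m + 1) * m * (m - 1) / 6

section Definitions

variable (K : Type*) [Field K]

/-- The generator `L n` of the free associative algebra. -/
noncomputable def gL (n : ℤ) : FreeAlgebra K Gen := FreeAlgebra.ι K (Gen.L n)

/-- The generator `C` of the free associative algebra. -/
noncomputable def gC : FreeAlgebra K Gen := FreeAlgebra.ι K Gen.C

/-- The relations `[L m, L n] = (m - n) L (m + n)` when `m + n ≠ 0`,
`[L m, L (-m)] = 2 m L 0 + (1/2) (m+1 choose 3) C`, and `[L n, C] = 0`. -/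
inductive Rel : FreeAlgebra K Gen → FreeAlgebra K Gen → Prop
  | bracket (m n : ℤ) (h : m + n ≠ 0) :
      Rel (gL K m * gL K n - gL K n * gL K m) (((m - n : ℤ) : K) • gL K (m + n))
  | bracket_neg (m : ℤ) :
      Rel (gL K m * gL K (-m) - gL K (-m) * gL K m)
        (((2 * m : ℤ) : K) • gL K 0 + ((1 / 2 : K) * (binom3 m : K)) • gC K)
  | central (n : ℤ) : Rel (gL K n * gC K - gC K * gL K n) 0

/-- The universal enveloping algebra of the Virasoro algebra. -/
abbrev U := RingQuot (Rel K)

noncomputable instance instRingU : Ring (U K) := inferInstance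

noncomputable instance instAlgebraU : Algebra K (U K) := inferInstance

/-- `L n` in the enveloping algebra. -/
noncomputable def UL (n : ℤ) : U K := RingQuot.mkAlgHom K (Rel K) (gL K n)

/-- `C` in the enveloping algebra. -/
noncomputable def UC : U K := RingQuot.mkAlgHom K (Rel K) (gC K)

/-- The left ideal generated by the `L n` with `n > 0`, by `L 0 - h` and by `C - c`. -/
noncomputable def vermaIdeal (c h : K) : Submodule (U K) (U K) :=
  Submodule.span (U K) ({x | ∃ n : ℤ, 0 < n ∧ x = UL K n} ∪
    {UL K 0 - algebraMap K (U K) h, UC K - algebraMap K (U K) c})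

/-- The Verma module `M_{c,h}`. -/
abbrev Verma (c h : K) := U K ⧸ vermaIdeal K c h

noncomputable instance instGroupVerma (c h : K) : AddCommGroup (Verma K c h) := inferInstance

noncomputable instance instModuleVerma (c h : K) : Module (U K) (Verma K c h) := inferInstance

noncomputable instance instSpaceVerma (c h : K) : Module K (Verma K c h) := inferInstance

/-- The highest weight vector `v` of the Verma module. -/
noncomputable def hwv (c h : K) : Verma K c h := Submodule.Quotient.mk 1

/-- The degree `k` part of the Verma module: the span of the `L (-i_1) ⋯ L (-i_r) v` with all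
`i_j > 0` and `i_1 + ⋯ + i_r = k`. -/
noncomputable def vermaDeg (c h : K) (k : ℕ) : Submodule K (Verma K c h) :=
  Submodule.span K {w | ∃ l : List ℕ, (∀ i ∈ l, 0 < i) ∧ l.sum = k ∧
    w = (l.map (fun i : ℕ => UL K (-(i : ℤ)))).prod • hwv K c h}

variable {K} in
/-- A submodule `N` is graded if each of its elements is a sum of homogeneous elements of `N`. -/
def IsGraded {c h : K} (N : Submodule (U K) (Verma K c h)) : Prop :=
  ∀ x ∈ N, x ∈ ⨆ k : ℕ, (N.restrictScalars K ⊓ vermaDeg K c h k)

/-- The largest proper graded submodule: the sum of all graded submodules that do not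
contain `v`. -/
noncomputable def maxGraded (c h : K) : Submodule (U K) (Verma K c h) :=
  sSup {N | IsGraded N ∧ hwv K c h ∉ N}

/-- The simple quotient `L_{c,h}`. -/
abbrev LMod (c h : K) := Verma K c h ⧸ maxGraded K c h

noncomputable instance instGroupLMod (c h : K) : AddCommGroup (LMod K c h) := inferInstance

noncomputable instance instModuleLMod (c h : K) : Module (U K) (LMod K c h) := inferInstance

noncomputable instance instSpaceLMod (c h : K) : Module K (LMod K c h) := inferInstance

/-- The degree `k` part of `L_{c,h}`. -/
noncomputable def LDeg (c h : K) (k : ℕ) : Submodule K (LMod K c h) :=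
  (vermaDeg K c h k).map ((maxGraded K c h).mkQ.restrictScalars K)

/-- The dimension of the degree `k` part of `L_{c,h}`. -/
noncomputable def dimL (c h : K) (k : ℕ) : ℕ := Module.finrank K (LDeg K c h k)

/-- The central charge `c_ℓ = 1 - 6 / ((ℓ+1)(ℓ+2))`, as an element of the field `K`. -/
def cc (ℓ : ℕ) : K := 1 - 6 / (((ℓ : K) + 1) * ((ℓ : K) + 2))

/-- The weight `h_{m,n} = (((ℓ+2) m - (ℓ+1) n)^2 - 1) / (4 (ℓ+1) (ℓ+2))`, as an element of `K`. -/
def hh (ℓ m n : ℕ) : K :=
  ((((ℓ : K) + 2) * m - ((ℓ : K) + 1) * n) ^ 2 - 1) / (4 * ((ℓ : K) + 1) * ((ℓ : K) + 2))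

end Definitions

end Pool.Agent.Results.MP_b4de2f_al.Disproof
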