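import Pool.Agent.Helper9.Vir.V9

set_option autoImplicit false

namespace Pool.Agent.Results.MP_b4de2f_al.Disproof

open Finsupp

section Exact

section char23

variable (F : Type*) [Field F] [CharP F 23]

theorem Y_mem_max23 (a b e : F) (hy : Y (3 : F) 19 a b 0 e ∈ maxGraded F 3 19) :
    a = 0 ∧ b = 0 ∧ e = 0 := by
  have q1 := phi_of_mem_max _ hy (UL F 2 * UL F 2)
  have q2 := phi_of_mem_max _ hy (UL F 1 * (UL F 1 * UL F 2))
  have q3 := phi_of_mem_max _ hy (UL F 1 * (UL F 2 * UL F 1))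
  have q4 := phi_of_mem_max _ hy (UL F 1 * (UL F 1 * (UL F 1 * UL F 1)))
  simp only [← smul_smul] at q1 q2 q3 q4
  rw [p22] at q1
  rw [p112] at q2
  rw [p121] at q3
  rw [p1111] at q4
  rw [half_three] at q1 q2 q3
  have h := h23 F
  refine ⟨?_, ?_, ?_⟩
  · linear_combination 3 * q2 + (-6) * q3 + 5 * q4 + ((-337) * a + (-11628) * b + (-413136) * e) * h
  · linear_combination (-8) * q2 + (-2) * q3 + 4 * q4 + ((-76) * a + (-5201) * b + (-233016) * e) * h
  · linear_combination (-1) * q2 + 8 * q3 + 10 * q4 + ((-1292) * a + (-37316) * b + (-1009009) * e) * h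

theorem lower23 : 3 ≤ Module.finrank F (LDeg F (3 : F) 19 4) := by
  have := LDeg_finite (3 : F) 19
  set π := (maxGraded F (3 : F) 19).mkQ.restrictScalars F with hπ
  have hm : ∀ l, E (3 : F) 19 l ∈ vermaDeg F (3 : F) 19 4 →
      π (E (3 : F) 19 l) ∈ LDeg F (3 : F) 19 4 := by
    intro l hl
    unfold LDeg
    exact Submodule.mem_map_of_mem hl
  have m4 := hm [4] (E_mem _ _ [4] (by simp))
  have m31 := hm [3, 1] (E_mem _ _ [3, 1] (by simp))
  have m211 := hm [2, 1, 1] (E_mem _ _ [2, 1, 1] (by simp))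
  let v : Fin 3 → LDeg F (3 : F) 19 4 := ![⟨_, m4⟩, ⟨_, m31⟩, ⟨_, m211⟩]
  have hv : LinearIndependent F v := by
    rw [Fintype.linearIndependent_iff]
    intro g hg
    have hg' := congrArg (Subtype.val) hg
    simp only [Fin.sum_univ_three, v] at hg'
    have h0 : Y (3 : F) 19 (g 0) (g 1) 0 (g 2) ∈ maxGraded F 3 19 := by
      have h1 : π (Y (3 : F) 19 (g 0) (g 1) 0 (g 2)) = 0 := by
        unfold Y
        simp only [map_add, map_smul, zero_smul, add_zero]
        simpa using hg'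
      rw [hπ] at h1
      simpa using h1
    obtain ⟨h1, h2, h3⟩ := Y_mem_max23 F _ _ _ h0
    intro i
    fin_cases i <;> assumption
  simpa using hv.fintype_card_le_finrank

end char23

section char0

variable {K : Type*} [Field K] [CharZero K]

theorem v3_mem : E (7 / 10 : K) (3 / 5) [1, 1, 1] - (16 / 5 : K) • E (7 / 10 : K) (3 / 5) [2, 1] +
    (24 / 25 : K) • E (7 / 10 : K) (3 / 5) [3] ∈ maxGraded K (7 / 10) (3 / 5) := by
  apply sing_mem_max two_ne_zero 3 (by norm_num)
  · refine Submodule.add_mem _ (Submodule.sub_mem _ ?_ (Submodule.smul_mem _ _ ?_)) (Submodule.smul_mem _ _ ?_)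
    · exact E_mem _ _ [1, 1, 1] (by simp)
    · exact E_mem _ _ [2, 1] (by simp)
    · exact E_mem _ _ [3] (by simp)
  · rw [smul_add, smul_sub, smul_comm (UL K 1), smul_comm (UL K 1), L1_111, L1_21, L1_3]
    match_scalars
    · ring
    · ring
  · rw [smul_add, smul_sub, smul_comm (UL K 2), smul_comm (UL K 2), L2_111, L2_21, L2_3]
    match_scalars
    ring

theorem upper0 : Module.finrank K (LDeg K (7 / 10 : K) (3 / 5) 4) ≤ 4 := by
  set π := (maxGraded K (7 / 10 : K) (3 / 5)).mkQ.restrictScalars K with hπ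
  have hker : ∀ w, w ∈ maxGraded K (7 / 10 : K) (3 / 5) → π w = 0 := by
    intro w hw
    rw [hπ]
    simpa using hw
  have r1 : π (E (7 / 10 : K) (3 / 5) [1, 1, 1, 1]) = (16 / 5 : K) • π (E (7 / 10 : K) (3 / 5) [2, 1, 1]) +
      (56 / 25 : K) • π (E (7 / 10 : K) (3 / 5) [3, 1]) - (48 / 25 : K) • π (E (7 / 10 : K) (3 / 5) [4]) := by
    have h1 := Submodule.smul_mem _ (UL K (-(1 : ℕ) : ℤ)) (v3_mem (K := K))
    rw [smul_add, smul_sub, smul_comm (UL K _), smul_comm (UL K _), E_cons, E_cons, E_cons, E_121, E_13] at h1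
    have h2 := hker _ h1
    simp only [map_add, map_sub, map_smul, smul_add] at h2
    rw [← sub_eq_zero, ← h2]
    match_scalars
    · ring
    · ring
    · ring
    · ring
  have hle : LDeg K (7 / 10 : K) (3 / 5) 4 ≤ Submodule.span K (Set.range
      ![π (E (7 / 10 : K) (3 / 5) [4]), π (E (7 / 10 : K) (3 / 5) [3, 1]),
        π (E (7 / 10 : K) (3 / 5) [2, 2]), π (E (7 / 10 : K) (3 / 5) [2, 1, 1])]) := by
    set S := Submodule.span K (Set.range
      ![π (E (7 / 10 : K) (3 / 5) [4]), π (E (7 / 10 : K) (3 / 5) [3, 1]),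
        π (E (7 / 10 : K) (3 / 5) [2, 2]), π (E (7 / 10 : K) (3 / 5) [2, 1, 1])]) with hS
    have m4 : π (E (7 / 10 : K) (3 / 5) [4]) ∈ S := Submodule.subset_span ⟨0, rfl⟩
    have m31 : π (E (7 / 10 : K) (3 / 5) [3, 1]) ∈ S := Submodule.subset_span ⟨1, rfl⟩
    have m22 : π (E (7 / 10 : K) (3 / 5) [2, 2]) ∈ S := Submodule.subset_span ⟨2, rfl⟩
    have m211 : π (E (7 / 10 : K) (3 / 5) [2, 1, 1]) ∈ S := Submodule.subset_span ⟨3, rfl⟩
    have m1111 : π (E (7 / 10 : K) (3 / 5) [1, 1, 1, 1]) ∈ S := by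
      rw [r1]
      exact S.sub_mem (S.add_mem (S.smul_mem _ m211) (S.smul_mem _ m31)) (S.smul_mem _ m4)
    unfold LDeg
    refine (Submodule.map_mono (deg4_le _ _)).trans ?_
    rw [Submodule.map_span, Submodule.span_le]
    rintro y ⟨x, hx, rfl⟩
    simp only [Set.mem_insert_iff, Set.mem_singleton_iff] at hx
    rcases hx with rfl | rfl | rfl | rfl | rfl
    · exact m4
    · exact m31
    · exact m22
    · exact m211
    · exact m1111
  have : Module.Finite K (Submodule.span K (Set.range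
      ![π (E (7 / 10 : K) (3 / 5) [4]), π (E (7 / 10 : K) (3 / 5) [3, 1]),
        π (E (7 / 10 : K) (3 / 5) [2, 2]), π (E (7 / 10 : K) (3 / 5) [2, 1, 1])])) :=
    FiniteDimensional.span_of_finite K (Set.finite_range _)
  refine (Submodule.finrank_mono hle).trans ?_
  have := finrank_range_le_card (R := K)
    ![π (E (7 / 10 : K) (3 / 5) [4]), π (E (7 / 10 : K) (3 / 5) [3, 1]),
        π (E (7 / 10 : K) (3 / 5) [2, 2]), π (E (7 / 10 : K) (3 / 5) [2, 1, 1])]
  simpa [Set.finrank] using this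

theorem cc_0 : cc K 3 = 7 / 10 := by
  unfold cc
  norm_num

theorem hh_0 : hh K 3 3 2 = 3 / 5 := by
  unfold hh
  norm_num

end char0

theorem dim23 (F : Type*) [Field F] [CharP F 23] :
    Module.finrank F (LDeg F (cc F 3) (hh F 3 3 2) 4) = 3 := by
  rw [cc_F, hh_F]
  exact le_antisymm (upper F) (lower23 F)

theorem dim0 : Module.finrank ℂ (LDeg ℂ (cc ℂ 3) (hh ℂ 3 3 2) 4) = 4 := by
  rw [cc_0, hh_0]
  exact le_antisymm upper0 lower

end Exact

end Pool.Agent.Results.MP_b4de2f_al.Disproof
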