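import Pool.Agent.Helper9.Vir.Defs

set_option autoImplicit false

namespace Pool.Agent.Results.MP_b4de2f_al.Disproof

open Finsupp

theorem six_binom3 (m : ℤ) : 6 * binom3 m = (m + 1) * m * (m - 1) := by
  unfold binom3
  have h : (6 : ℤ) ∣ (m + 1) * m * (m - 1) := by
    apply Int.dvd_of_emod_eq_zero
    have : m % 6 = 0 ∨ m % 6 = 1 ∨ m % 6 = 2 ∨ m % 6 = 3 ∨ m % 6 = 4 ∨ m % 6 = 5 := by omega
    rcases this with h | h | h | h | h | h <;> simp [Int.mul_emod, Int.add_emod, Int.sub_emod, h]
  exact Int.mul_ediv_cancel' h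

theorem binom3_neg (m : ℤ) : binom3 (-m) = - binom3 m := by
  have h1 := six_binom3 (-m)
  have h2 := six_binom3 m
  have : 6 * binom3 (-m) = 6 * (- binom3 m) := by
    rw [h1]; linear_combination h2
  omega

theorem binom3_cocycle (a m n : ℤ) (h : a + m + n = 0) :
    (m - n) * binom3 a + (n - a) * binom3 m + (a - m) * binom3 n = 0 := by
  have h1 := six_binom3 a
  have h2 := six_binom3 m
  have h3 := six_binom3 n
  have hn : n = - a - m := by omega
  subst hn
  have : 6 * ((m - (-a-m)) * binom3 a + ((-a-m) - a) * binom3 m + (a - m) * binom3 (-a-m)) = 0 := by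
    linear_combination (m - (-a-m)) * h1 + ((-a-m) - a) * h2 + (a - m) * h3
  omega

section Rep

variable (K : Type*) [Field K] (c h : K)

/-- Words in the letters `L_{-(i+1)}`, `i : ℕ`. -/
abbrev T := List ℕ →₀ K

/-- left multiplication by a letter -/
noncomputable def lm (i : ℕ) : T K →ₗ[K] T K := Finsupp.lmapDomain K K (List.cons i)

/-- coefficient of the central term -/
noncomputable def psi (n : ℤ) : K := (1 / 2) * (binom3 n : K)

noncomputable def act : List ℕ → ℤ → T K
  | [], n => if n < 0 then Finsupp.single [(-n - 1).toNat] 1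
      else if n = 0 then Finsupp.single [] h else 0
  | (i :: w), n => if n < 0 then Finsupp.single ((-n - 1).toNat :: i :: w) 1
      else lm K i (act w n) + ((n + (i + 1) : ℤ) : K) • act w (n - (i + 1)) +
        (if n = i + 1 then Finsupp.single w (psi K n * c) else 0)

noncomputable def Lop (n : ℤ) : T K →ₗ[K] T K :=
  Finsupp.linearCombination K (fun w => act K c h w n)

variable {K}

theorem lm_single (i : ℕ) (w : List ℕ) (a : K) :
    lm K i (Finsupp.single w a) = Finsupp.single (i :: w) a := by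
  simp [lm, Finsupp.lmapDomain, Finsupp.mapDomain_single]

theorem Lop_single (n : ℤ) (w : List ℕ) (a : K) :
    Lop K c h n (Finsupp.single w a) = a • act K c h w n := by
  simp [Lop]

theorem Lop_neg {n : ℤ} (hn : n < 0) : Lop K c h n = lm K (-n - 1).toNat := by
  apply Finsupp.lhom_ext
  intro w a
  rw [Lop_single, lm_single]
  cases w with
  | nil => simp [act, hn]
  | cons i w => simp [act, hn]

theorem Lop_neg' (i : ℕ) : Lop K c h (-(i + 1 : ℤ)) = lm K i := by
  rw [Lop_neg c h (by omega)]
  congr 1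
  omega

theorem Lop_lm {n : ℤ} (hn : 0 ≤ n) (i : ℕ) (x : T K) :
    Lop K c h n (lm K i x) = lm K i (Lop K c h n x) +
      ((n + (i + 1) : ℤ) : K) • Lop K c h (n - (i + 1)) x +
      (if n = i + 1 then (psi K n * c) • x else 0) := by
  induction x using Finsupp.induction_linear with
  | zero => simp
  | add f g hf hg =>
    simp only [map_add, hf, hg, smul_add]
    split_ifs
    · abel
    · abel
  | single w a =>
    rw [lm_single, Lop_single, Lop_single, Lop_single, act, if_neg (by omega)]
    simp only [map_smul, smul_add]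
    rw [smul_comm a]
    congr 1
    split_ifs
    · rw [Finsupp.smul_single, Finsupp.smul_single, smul_eq_mul, smul_eq_mul, mul_comm]
    · simp

theorem Lop_nil_pos {n : ℤ} (hn : 0 < n) : Lop K c h n (Finsupp.single [] 1) = 0 := by
  rw [Lop_single, act, if_neg (by omega), if_neg (by omega)]; simp

theorem Lop_nil_zero : Lop K c h 0 (Finsupp.single [] 1) = h • Finsupp.single [] 1 := by
  rw [Lop_single, act, if_neg (by omega), if_pos rfl]; simp

/-- The commutation defect of two letters. -/
noncomputable def rel (i j : ℕ) (x : T K) : T K :=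
  lm K i (lm K j x) - lm K j (lm K i x) - ((j - i : ℤ) : K) • lm K (i + j + 1) x

variable (K)

/-- The smallest subspace containing all commutation defects and stable under letters. -/
noncomputable def R : Submodule K (T K) :=
  sInf {S | (∀ i j x, rel i j x ∈ S) ∧ ∀ k, ∀ x ∈ S, lm K k x ∈ S}

variable {K}

theorem rel_mem (i j : ℕ) (x : T K) : rel i j x ∈ R K := by
  rw [R, Submodule.mem_sInf]
  intro S hS
  exact hS.1 i j x

theorem lm_mem (k : ℕ) (x : T K) (hx : x ∈ R K) : lm K k x ∈ R K := by
  rw [R, Submodule.mem_sInf] at *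
  intro S hS
  exact hS.2 k x (hx S hS)

theorem R_le {S : Submodule K (T K)} (h1 : ∀ i j x, rel i j x ∈ S)
    (h2 : ∀ k, ∀ x ∈ S, lm K k x ∈ S) : R K ≤ S := sInf_le ⟨h1, h2⟩

/-- commutation of any operator with a letter, modulo `R`. -/
theorem Lop_lm_mod (n : ℤ) (i : ℕ) (x : T K) :
    Lop K c h n (lm K i x) - (lm K i (Lop K c h n x) +
      ((n + (i + 1) : ℤ) : K) • Lop K c h (n - (i + 1)) x +
      (if n = i + 1 then (psi K n * c) • x else 0)) ∈ R K := by
  by_cases hn : 0 ≤ n
  · rw [Lop_lm c h hn]; simp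
  · obtain ⟨a, rfl⟩ : ∃ a : ℕ, n = -(a + 1 : ℤ) := ⟨(-n - 1).toNat, by omega⟩
    have e1 : (-(a + 1 : ℤ)) - (i + 1) = -((a + i + 1 : ℕ) + 1 : ℤ) := by push_cast; ring
    rw [e1, Lop_neg', Lop_neg', if_neg (by omega)]
    have := rel_mem a i x
    unfold rel at this
    convert this using 1
    push_cast
    module

theorem psi_cocycle (a m n : ℤ) (hh : a + m + n = 0) :
    ((m - n : ℤ) : K) * psi K a + ((n - a : ℤ) : K) * psi K m + ((a - m : ℤ) : K) * psi K n = 0 := by
  have := congrArg (Int.cast : ℤ → K) (binom3_cocycle a m n hh)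
  push_cast at this
  unfold psi
  push_cast
  linear_combination (1 / 2 : K) * this

theorem psi_neg (n : ℤ) : psi K (-n) = - psi K n := by
  unfold psi; rw [binom3_neg]; push_cast; ring

theorem Lop_rel (n : ℤ) (i j : ℕ) (x : T K) : Lop K c h n (rel i j x) ∈ R K := by
  by_cases hn : 0 ≤ n
  swap
  · rw [Lop_neg c h (by omega)]
    exact lm_mem _ _ (rel_mem _ _ _)
  have key : Lop K c h n (rel i j x) = rel i j (Lop K c h n x)
     + ((n + (i + 1) : ℤ) : K) • (Lop K c h (n - (i + 1)) (lm K j x) - (lm K j (Lop K c h (n - (i + 1)) x) +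
      (((n - (i + 1)) + (j + 1) : ℤ) : K) • Lop K c h ((n - (i + 1)) - (j + 1)) x +
      (if (n - (i + 1)) = j + 1 then (psi K (n - (i + 1)) * c) • x else 0)))
     - ((n + (j + 1) : ℤ) : K) • (Lop K c h (n - (j + 1)) (lm K i x) - (lm K i (Lop K c h (n - (j + 1)) x) +
      (((n - (j + 1)) + (i + 1) : ℤ) : K) • Lop K c h ((n - (j + 1)) - (i + 1)) x +
      (if (n - (j + 1)) = i + 1 then (psi K (n - (j + 1)) * c) • x else 0))) := by
    unfold rel
    simp only [map_sub, map_smul]
    rw [Lop_lm c h hn, Lop_lm c h hn j, Lop_lm c h hn j, Lop_lm c h hn i, Lop_lm c h hn (i + j + 1)]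
    have e1 : n - (j + 1 : ℤ) - (i + 1) = n - (i + 1) - (j + 1) := by ring
    have e2 : n - (((i + j + 1 : ℕ) : ℤ) + 1) = n - (i + 1) - (j + 1) := by push_cast; ring
    rw [e1, e2]
    have hi : ∀ (a : ℤ) (b : K) (t : ℕ) (y : T K), lm K t (if n = a then b • y else 0) = if n = a then b • lm K t y else 0 := by
      intro a b t y; split_ifs <;> simp
    simp only [map_add, map_smul, hi]
    by_cases hc : n = (i + 1) + (j + 1)
    · have c1 : n - (i + 1 : ℤ) = j + 1 := by omega
      have c2 : n - (j + 1 : ℤ) = i + 1 := by omega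
      have c3 : n = ((i + j + 1 : ℕ) : ℤ) + 1 := by push_cast; omega
      have c4 : ¬ (n = (i : ℤ) + 1) := by omega
      have c5 : ¬ (n = (j : ℤ) + 1) := by omega
      have cc := psi_cocycle (K := K) n (-(i+1)) (-(j+1)) (by omega)
      rw [psi_neg, psi_neg] at cc
      rw [if_pos c1, if_pos c2, if_pos c3, if_neg c4, if_neg c5, c1, c2]
      subst hc
      generalize psi K ((i : ℤ) + 1) = p1 at *
      generalize psi K ((j : ℤ) + 1) = p2 at *
      generalize psi K ((i : ℤ) + 1 + (j + 1)) = p3 at *
      push_cast at cc ⊢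
      match_scalars
      all_goals first | ring1 | linear_combination (-c) * cc
    · have c1 : ¬ (n - (i + 1 : ℤ) = j + 1) := by omega
      have c2 : ¬ (n - (j + 1 : ℤ) = i + 1) := by omega
      have c3 : ¬ (n = ((i + j + 1 : ℕ) : ℤ) + 1) := by push_cast; omega
      rw [if_neg c1, if_neg c2, if_neg c3]
      push_cast
      split_ifs with c4 c5 c5
      all_goals match_scalars <;> ring1
  rw [key]
  apply Submodule.sub_mem
  · apply Submodule.add_mem _ (rel_mem _ _ _)
    apply Submodule.smul_mem
    exact Lop_lm_mod c h _ _ _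
  · apply Submodule.smul_mem
    exact Lop_lm_mod c h _ _ _

end Rep

end Pool.Agent.Results.MP_b4de2f_al.Disproof
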