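import Pool.Agent.Helper9.Vir.V2

set_option autoImplicit false

namespace Pool.Agent.Results.MP_b4de2f_al.Disproof

open Finsupp

section Rep

variable {K : Type*} [Field K] (c h : K)

theorem Lop_mem_R (n : ℤ) (x : T K) (hx : x ∈ R K) : Lop K c h n x ∈ R K := by
  have : R K ≤ R K ⊓ ⨅ n : ℤ, (R K).comap (Lop K c h n) := by
    apply R_le
    · intro i j x
      refine ⟨rel_mem _ _ _, ?_⟩
      rw [SetLike.mem_coe, Submodule.mem_iInf]
      intro n
      exact Lop_rel c h n i j x
    · rintro k x ⟨hx1, hx2⟩
      rw [SetLike.mem_coe, Submodule.mem_iInf] at hx2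
      refine ⟨lm_mem _ _ hx1, ?_⟩
      rw [SetLike.mem_coe, Submodule.mem_iInf]
      intro n
      have hx2' : ∀ n, Lop K c h n x ∈ R K := hx2
      have h1 := Lop_lm_mod c h n k x
      have h2 : (lm K k (Lop K c h n x) +
        ((n + (k + 1) : ℤ) : K) • Lop K c h (n - (k + 1)) x +
        (if n = k + 1 then (psi K n * c) • x else 0)) ∈ R K := by
        apply Submodule.add_mem
        · apply Submodule.add_mem
          · exact lm_mem _ _ (hx2' n)
          · exact Submodule.smul_mem _ _ (hx2' _)
        · split_ifs
          · exact Submodule.smul_mem _ _ hx1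
          · exact Submodule.zero_mem _
      have h3 := Submodule.add_mem _ h1 h2
      simpa using h3
  have h1 := this hx
  have h2 := h1.2
  rw [SetLike.mem_coe, Submodule.mem_iInf] at h2
  exact h2 n

variable (K)

/-- The Verma module, realised as the quotient of the space of words by `R`. -/
abbrev Q := T K ⧸ R K

noncomputable def Lbar (n : ℤ) : Q K →ₗ[K] Q K :=
  Submodule.mapQ (R K) (R K) (Lop K c h n) (fun x hx => Lop_mem_R c h n x hx)

noncomputable def vac : Q K := Submodule.Quotient.mk (Finsupp.single [] 1)

variable {K}

theorem Lbar_mk (n : ℤ) (x : T K) :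
    Lbar K c h n (Submodule.Quotient.mk x) = Submodule.Quotient.mk (Lop K c h n x) := rfl

theorem Lbar_comm_neg (n : ℤ) (i : ℕ) (x : Q K) :
    Lbar K c h n (Lbar K c h (-(i + 1 : ℤ)) x) = Lbar K c h (-(i + 1 : ℤ)) (Lbar K c h n x) +
      ((n + (i + 1) : ℤ) : K) • Lbar K c h (n - (i + 1)) x +
      (if n = i + 1 then (psi K n * c) • x else 0) := by
  obtain ⟨x, rfl⟩ := Submodule.Quotient.mk_surjective _ x
  have := Lop_lm_mod c h n i x
  rw [← Submodule.Quotient.mk_eq_zero (R K), Submodule.Quotient.mk_sub, sub_eq_zero] at this
  rw [Lbar_mk, Lbar_mk, Lbar_mk, Lbar_mk, Lbar_mk, Lop_neg', this]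
  split_ifs <;> rfl

theorem Lbar_vac_pos {n : ℤ} (hn : 0 < n) : Lbar K c h n (vac K) = 0 := by
  unfold vac
  rw [Lbar_mk, Lop_nil_pos c h hn]; rfl

theorem Lbar_vac_zero : Lbar K c h 0 (vac K) = h • vac K := by
  unfold vac
  rw [Lbar_mk, Lop_nil_zero c h]; rfl

/-- induction principle for `Q` -/
theorem Q_induction {P : Q K → Prop} (hz : P 0) (hadd : ∀ x y, P x → P y → P (x + y))
    (hsmul : ∀ (a : K) x, P x → P (a • x)) (hvac : P (vac K))
    (hL : ∀ (i : ℕ) x, P x → P (Lbar K c h (-(i + 1 : ℤ)) x)) (x : Q K) : P x := by
  obtain ⟨x, rfl⟩ := Submodule.Quotient.mk_surjective _ x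
  induction x using Finsupp.induction_linear with
  | zero => exact hz
  | add f g hf hg => exact hadd _ _ hf hg
  | single w a =>
    have : (Finsupp.single w a : T K) = a • Finsupp.single w 1 := by simp
    rw [this]
    refine hsmul a (Submodule.Quotient.mk (Finsupp.single w 1)) ?_
    clear this
    induction w with
    | nil => exact hvac
    | cons i w ih =>
      have := hL i _ ih
      rw [Lbar_mk, Lop_neg', lm_single] at this
      exact this

/-- the Virasoro relation on `Q` -/
theorem Lbar_comm (m n : ℤ) (x : Q K) :
    Lbar K c h m (Lbar K c h n x) = Lbar K c h n (Lbar K c h m x) +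
      ((m - n : ℤ) : K) • Lbar K c h (m + n) x +
      (if m + n = 0 then (psi K m * c) • x else 0) := by
  have negcase : ∀ (m n : ℤ) (x : Q K), n < 0 → Lbar K c h m (Lbar K c h n x) = Lbar K c h n (Lbar K c h m x) +
      ((m - n : ℤ) : K) • Lbar K c h (m + n) x +
      (if m + n = 0 then (psi K m * c) • x else 0) := by
    intro m n x hn
    obtain ⟨i, rfl⟩ : ∃ a : ℕ, n = -(a + 1 : ℤ) := ⟨(-n - 1).toNat, by omega⟩
    rw [Lbar_comm_neg]
    have e1 : m + (i + 1 : ℤ) = m - -(i + 1 : ℤ) := by ring
    have e2 : m - (i + 1 : ℤ) = m + -(i + 1 : ℤ) := by ring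
    rw [e1, e2]
    by_cases hm : m = i + 1
    · rw [if_pos hm, if_pos (by omega)]
    · rw [if_neg hm, if_neg (by omega)]
  by_cases hn : n < 0
  · exact negcase m n x hn
  by_cases hm : m < 0
  · have h1 := negcase n m x hm
    rw [h1]
    have e1 : n + m = m + n := add_comm _ _
    rw [e1]
    by_cases hmn : m + n = 0
    · have : n = -m := by omega
      subst this
      simp only [hmn, if_true, psi_neg]
      push_cast; module
    · simp only [hmn, if_false]
      push_cast; module
  -- both nonnegative
  push Not at hn hm
  have main : ∀ x : Q K, ∀ m n : ℤ, 0 ≤ m → 0 ≤ n → Lbar K c h m (Lbar K c h n x) =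
      Lbar K c h n (Lbar K c h m x) + ((m - n : ℤ) : K) • Lbar K c h (m + n) x := by
    intro x
    induction x using Q_induction c h with
    | hz => intro m n _ _; simp
    | hadd x y hx hy =>
      intro m n h1 h2
      simp only [map_add, hx m n h1 h2, hy m n h1 h2, smul_add]; abel
    | hsmul a x hx =>
      intro m n h1 h2
      simp only [map_smul, hx m n h1 h2, smul_add]
      rw [smul_comm a]
    | hvac =>
      intro m n h1 h2
      rcases h1.lt_or_eq with h1' | h1'
      · rcases h2.lt_or_eq with h2' | h2'
        · rw [Lbar_vac_pos c h h2', Lbar_vac_pos c h h1', Lbar_vac_pos c h (by omega)]; simp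
        · subst h2'
          rw [Lbar_vac_zero, map_smul, add_zero, Lbar_vac_pos c h h1']; simp
      · subst h1'
        rcases h2.lt_or_eq with h2' | h2'
        · rw [Lbar_vac_zero, zero_add, map_smul, Lbar_vac_pos c h h2']; simp
        · subst h2'; simp
    | hL i x ih =>
      intro m n h1 h2
      -- full relation on x for all pairs
      have full : ∀ m n : ℤ, Lbar K c h m (Lbar K c h n x) = Lbar K c h n (Lbar K c h m x) +
          ((m - n : ℤ) : K) • Lbar K c h (m + n) x +
          (if m + n = 0 then (psi K m * c) • x else 0) := by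
        intro m n
        by_cases hn : n < 0
        · exact negcase m n x hn
        by_cases hm : m < 0
        · have h1 := negcase n m x hm
          rw [h1]
          have e1 : n + m = m + n := add_comm _ _
          rw [e1]
          by_cases hmn : m + n = 0
          · have : n = -m := by omega
            subst this
            simp only [hmn, if_true, psi_neg]
            push_cast; module
          · simp only [hmn, if_false]
            push_cast; module
        push Not at hn hm
        rw [ih m n hm hn]
        by_cases hmn : m + n = 0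
        · have e1 : m = 0 := by omega
          have e2 : n = 0 := by omega
          subst e1; subst e2
          simp [psi, binom3]
        · simp [hmn]
      have hi : ∀ (p : Prop) [Decidable p] (b : K) (t : ℤ) (y : Q K), Lbar K c h t (if p then b • y else 0) = if p then b • Lbar K c h t y else 0 := by
        intro p _ b t y; split_ifs <;> simp
      have q3 := Lbar_comm_neg c h m i (Lbar K c h n x)
      have q4 := Lbar_comm_neg c h n i (Lbar K c h m x)
      have f2 := full (m - (i + 1)) n
      have f3 := full m (n - (i + 1))
      have i1 : m - (i + 1 : ℤ) + n = m + n - (i + 1) := by ring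
      have i2 : m + (n - (i + 1 : ℤ)) = m + n - (i + 1) := by ring
      rw [i1] at f2
      rw [i2] at f3
      rw [Lbar_comm_neg c h n i x, Lbar_comm_neg c h m i x, Lbar_comm_neg c h (m + n) i x]
      simp only [map_add, map_smul, hi]
      rw [q3, q4, f2, f3, ih m n h1 h2]
      simp only [map_add, map_smul]
      by_cases hc : m + n = i + 1
      · have hc0 : m + n - (i + 1 : ℤ) = 0 := by omega
        rw [if_pos hc0, if_pos hc0, if_pos hc]
        have cc := psi_cocycle (K := K) (-(m + n)) m n (by ring)
        rw [psi_neg] at cc
        have e4 : psi K (m - (i + 1)) = - psi K n := by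
          rw [← psi_neg]; congr 1; omega
        rw [e4]
        have e5 : ((i : K) + 1) = m + n := by
          have := congrArg (Int.cast : ℤ → K) hc
          push_cast at this; exact this.symm
        push_cast at cc ⊢
        rw [e5]
        generalize (if m = (i : ℤ) + 1 then (psi K m * c) • Lbar K c h n x else 0) = y1
        generalize (if n = (i : ℤ) + 1 then (psi K n * c) • Lbar K c h m x else 0) = y2
        match_scalars
        all_goals first | ring1 | linear_combination c * cc
      · have hc0 : ¬ (m + n - (i + 1 : ℤ) = 0) := by omega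
        rw [if_neg hc0, if_neg hc0, if_neg hc]
        push_cast
        generalize (if m = (i : ℤ) + 1 then (psi K m * c) • Lbar K c h n x else 0) = y1
        generalize (if n = (i : ℤ) + 1 then (psi K n * c) • Lbar K c h m x else 0) = y2
        match_scalars <;> ring1
  rw [main x m n hm hn]
  by_cases hmn : m + n = 0
  · have e1 : m = 0 := by omega
    have e2 : n = 0 := by omega
    subst e1; subst e2
    simp [psi, binom3]
  · simp [hmn]

end Rep

end Pool.Agent.Results.MP_b4de2f_al.Disproof
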