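import Pool.Agent.Helper9.Vir.V3

set_option autoImplicit false

namespace Pool.Agent.Results.MP_b4de2f_al.Disproof

open Finsupp

section Modules

variable (K : Type*) [Field K]

variable {K} (c h : K)

/-- the operators attached to the generators -/
noncomputable def opOf : Gen → Module.End K (Q K)
  | Gen.L n => Lbar K c h n
  | Gen.C => c • (1 : Module.End K (Q K))

theorem lift_gL (n : ℤ) : FreeAlgebra.lift K (opOf c h) (gL K n) = Lbar K c h n := by
  unfold gL
  rw [FreeAlgebra.lift_ι_apply]
  rfl

theorem lift_gC : FreeAlgebra.lift K (opOf c h) (gC K) = c • (1 : Module.End K (Q K)) := by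
  unfold gC
  rw [FreeAlgebra.lift_ι_apply]
  rfl

theorem lift_rel {x y : FreeAlgebra K Gen} (hxy : Rel K x y) :
    FreeAlgebra.lift K (opOf c h) x = FreeAlgebra.lift K (opOf c h) y := by
  cases hxy with
  | bracket m n hmn =>
    simp only [map_sub, map_mul, map_smul, lift_gL]
    refine LinearMap.ext fun x => ?_
    rw [LinearMap.sub_apply, Module.End.mul_apply, Module.End.mul_apply, Lbar_comm, if_neg hmn]
    simp
  | bracket_neg m =>
    simp only [map_sub, map_mul, map_add, map_smul, lift_gL, lift_gC]
    refine LinearMap.ext fun x => ?_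
    rw [LinearMap.sub_apply, Module.End.mul_apply, Module.End.mul_apply, Lbar_comm,
      if_pos (by ring)]
    simp only [LinearMap.add_apply, LinearMap.smul_apply, Module.End.one_apply]
    have e : m - -m = 2 * m := by ring
    have e2 : m + -m = 0 := by ring
    rw [e, e2]
    unfold psi
    module
  | central n =>
    simp only [map_sub, map_mul, map_zero, lift_gL, lift_gC]
    refine LinearMap.ext fun x => ?_
    simp

noncomputable def rho : U K →ₐ[K] Module.End K (Q K) :=
  RingQuot.liftAlgHom K ⟨FreeAlgebra.lift K (opOf c h), fun _ _ hxy => lift_rel c h hxy⟩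

theorem rho_UL (n : ℤ) : rho c h (UL K n) = Lbar K c h n := by
  unfold rho UL
  rw [RingQuot.liftAlgHom_mkAlgHom_apply]
  exact lift_gL c h n

theorem rho_UC : rho c h (UC K) = c • (1 : Module.End K (Q K)) := by
  unfold rho UC
  rw [RingQuot.liftAlgHom_mkAlgHom_apply]
  exact lift_gC c h

/-- coefficient of the empty word -/
noncomputable def eps0 : T K →ₗ[K] K := Finsupp.lapply []

theorem eps0_lm (i : ℕ) (x : T K) : eps0 (lm K i x) = 0 := by
  induction x using Finsupp.induction_linear with
  | zero => simp
  | add f g hf hg => simp [hf, hg]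
  | single w a => rw [lm_single]; simp [eps0]

theorem R_le_ker : R K ≤ LinearMap.ker (eps0 (K := K)) := by
  apply R_le
  · intro i j x
    rw [LinearMap.mem_ker]
    unfold rel
    simp [eps0_lm]
  · intro k x _
    rw [LinearMap.mem_ker, eps0_lm]

noncomputable def eps : Q K →ₗ[K] K := (R K).liftQ eps0 R_le_ker

theorem eps_vac : eps (vac K) = 1 := by
  simp [eps, vac, eps0]

theorem eps_Lbar_neg {n : ℤ} (hn : n < 0) (x : Q K) : eps (Lbar K c h n x) = 0 := by
  obtain ⟨x, rfl⟩ := Submodule.Quotient.mk_surjective _ x
  rw [Lbar_mk, Lop_neg c h hn]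
  unfold eps
  rw [Submodule.liftQ_apply, eps0_lm]

theorem rho_ideal (x : U K) (hx : x ∈ vermaIdeal K c h) : rho c h x (vac K) = 0 := by
  unfold vermaIdeal at hx
  induction hx using Submodule.span_induction with
  | mem x hx =>
    rcases hx with ⟨n, hn, rfl⟩ | hx
    · rw [rho_UL, Lbar_vac_pos c h hn]
    · rcases hx with rfl | hx
      · rw [map_sub, AlgHom.commutes, rho_UL, LinearMap.sub_apply, Lbar_vac_zero]
        simp [Algebra.algebraMap_eq_smul_one]
      · rw [Set.mem_singleton_iff] at hx
        subst hx
        rw [map_sub, AlgHom.commutes, rho_UC, LinearMap.sub_apply]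
        simp [Algebra.algebraMap_eq_smul_one]
  | zero => simp
  | add x y _ _ hx hy => rw [map_add, LinearMap.add_apply, hx, hy, add_zero]
  | smul a x _ hx => rw [smul_eq_mul, map_mul, Module.End.mul_apply, hx, map_zero]

/-- the map from the Verma module to its concrete realisation -/
noncomputable def toQ : Verma K c h →ₗ[K] Q K :=
  (((vermaIdeal K c h).restrictScalars K).liftQ
    ((LinearMap.applyₗ (vac K)) ∘ₗ (rho c h).toLinearMap) (by
      intro x hx
      exact rho_ideal c h x hx)) ∘ₗ (Submodule.Quotient.restrictScalarsEquiv K (vermaIdeal K c h)).symm.toLinearMap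

theorem toQ_smul_hwv (x : U K) : toQ c h (x • hwv K c h) = rho c h x (vac K) := by
  have : x • hwv K c h = Submodule.Quotient.mk x := by
    unfold hwv
    rw [← Submodule.Quotient.mk_smul, smul_eq_mul, mul_one]
  rw [this]
  rfl

theorem verma_exists (w : Verma K c h) : ∃ x : U K, w = x • hwv K c h := by
  obtain ⟨x, rfl⟩ := Submodule.Quotient.mk_surjective _ w
  refine ⟨x, ?_⟩
  unfold hwv
  rw [← Submodule.Quotient.mk_smul, smul_eq_mul, mul_one]

theorem toQ_smul (x : U K) (w : Verma K c h) : toQ c h (x • w) = rho c h x (toQ c h w) := by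
  obtain ⟨y, rfl⟩ := verma_exists c h w
  rw [smul_smul, toQ_smul_hwv, toQ_smul_hwv, map_mul, Module.End.mul_apply]

/-- the functional on the Verma module -/
noncomputable def phi : Verma K c h →ₗ[K] K := eps ∘ₗ toQ c h

theorem phi_hwv : phi c h (hwv K c h) = 1 := by
  have := toQ_smul_hwv c h 1
  rw [one_smul, map_one] at this
  unfold phi
  rw [LinearMap.comp_apply, this, Module.End.one_apply, eps_vac]

theorem phi_neg {n : ℤ} (hn : n < 0) (w : Verma K c h) : phi c h (UL K n • w) = 0 := by
  unfold phi
  rw [LinearMap.comp_apply, toQ_smul, rho_UL, eps_Lbar_neg c h hn]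

/-! ### Relations in the Verma module -/

theorem UL_mul (m n : ℤ) : UL K m * UL K n = UL K n * UL K m + ((m - n : ℤ) : K) • UL K (m + n) +
    (if m + n = 0 then psi K m • UC K else 0) := by
  split_ifs with hmn
  · have hn : n = -m := by omega
    subst hn
    have h1 := RingQuot.mkAlgHom_rel K (Rel.bracket_neg (K := K) m)
    simp only [map_sub, map_mul, map_add, map_smul] at h1
    have h2 : UL K m * UL K (-m) = (UL K m * UL K (-m) - UL K (-m) * UL K m) + UL K (-m) * UL K m := by abel
    have e : m - -m = 2 * m := by ring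
    have e2 : m + -m = 0 := by ring
    rw [h2, e, e2]
    unfold UL UC psi
    rw [h1]
    abel
  · have h1 := RingQuot.mkAlgHom_rel K (Rel.bracket (K := K) m n hmn)
    simp only [map_sub, map_mul, map_smul] at h1
    have h2 : UL K m * UL K n = (UL K m * UL K n - UL K n * UL K m) + UL K n * UL K m := by abel
    rw [h2, add_zero]
    unfold UL
    rw [h1]
    abel

theorem UC_mul (n : ℤ) : UC K * UL K n = UL K n * UC K := by
  have h1 := RingQuot.mkAlgHom_rel K (Rel.central (K := K) n)
  simp only [map_sub, map_mul, map_zero] at h1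
  exact (sub_eq_zero.mp h1).symm

theorem U_induction {P : U K → Prop} (hs : ∀ a : K, P (algebraMap K _ a))
    (hL : ∀ n, P (UL K n)) (hC : P (UC K))
    (hmul : ∀ x y, P x → P y → P (x * y)) (hadd : ∀ x y, P x → P y → P (x + y)) (x : U K) : P x := by
  obtain ⟨x, rfl⟩ := RingQuot.mkAlgHom_surjective K (Rel K) x
  induction x using FreeAlgebra.induction with
  | grade0 a => rw [AlgHom.commutes]; exact hs a
  | grade1 g =>
    cases g with
    | L n => exact hL n
    | C => exact hC
  | mul x y hx hy => rw [map_mul]; exact hmul _ _ hx hy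
  | add x y hx hy => rw [map_add]; exact hadd _ _ hx hy

end Modules

end Pool.Agent.Results.MP_b4de2f_al.Disproof
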