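import Pool.Agent.Helper9.Vir.V4

set_option autoImplicit false

namespace Pool.Agent.Results.MP_b4de2f_al.Disproof

open Finsupp

section Modules

variable {K : Type*} [Field K] (c h : K)

theorem UL_pos_hwv {n : ℤ} (hn : 0 < n) : UL K n • hwv K c h = 0 := by
  unfold hwv
  rw [← Submodule.Quotient.mk_smul, smul_eq_mul, mul_one, Submodule.Quotient.mk_eq_zero]
  exact Submodule.subset_span (Or.inl ⟨n, hn, rfl⟩)

theorem algebraMap_smul' (a : K) (w : Verma K c h) : (algebraMap K (U K) a) • w = a • w := by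
  rw [algebraMap_smul]

theorem UL_zero_hwv : UL K 0 • hwv K c h = h • hwv K c h := by
  rw [← algebraMap_smul' c h h, ← sub_eq_zero, ← sub_smul]
  unfold hwv
  rw [← Submodule.Quotient.mk_smul, smul_eq_mul, mul_one, Submodule.Quotient.mk_eq_zero]
  exact Submodule.subset_span (Or.inr (Or.inl rfl))

theorem UC_hwv : UC K • hwv K c h = c • hwv K c h := by
  rw [← algebraMap_smul' c h c, ← sub_eq_zero, ← sub_smul]
  unfold hwv
  rw [← Submodule.Quotient.mk_smul, smul_eq_mul, mul_one, Submodule.Quotient.mk_eq_zero]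
  exact Submodule.subset_span (Or.inr (Or.inr rfl))

theorem UC_comm (x : U K) : UC K * x = x * UC K := by
  induction x using U_induction with
  | hs a => exact (Algebra.commutes a _).symm
  | hL n => exact UC_mul n
  | hC => rfl
  | hmul x y hx hy => rw [← mul_assoc, hx, mul_assoc, hy, mul_assoc]
  | hadd x y hx hy => rw [mul_add, add_mul, hx, hy]

theorem UC_smul (w : Verma K c h) : UC K • w = c • w := by
  obtain ⟨x, rfl⟩ := verma_exists c h w
  rw [smul_smul, UC_comm, ← smul_smul, UC_hwv, smul_comm]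

theorem UL_comm (m n : ℤ) (w : Verma K c h) : UL K m • UL K n • w = UL K n • UL K m • w +
    ((m - n : ℤ) : K) • UL K (m + n) • w + (if m + n = 0 then (psi K m * c) • w else 0) := by
  rw [smul_smul, UL_mul, add_smul, add_smul, smul_smul, smul_assoc]
  congr 1
  split_ifs
  · rw [smul_assoc, UC_smul, smul_smul]
  · rw [zero_smul]

variable (K) in
/-- lowering monomial -/
noncomputable def mono (l : List ℕ) : U K := (l.map (fun i : ℕ => UL K (-(i : ℤ)))).prod

theorem mono_nil : mono K [] = 1 := by simp [mono]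
theorem mono_cons (i : ℕ) (l : List ℕ) : mono K (i :: l) = UL K (-(i : ℤ)) * mono K l := by simp [mono]
theorem mono_append (l l' : List ℕ) : mono K (l ++ l') = mono K l * mono K l' := by simp [mono]

variable {c h}

/-- span of the monomials of degree `j` applied to `w` -/
noncomputable def Sg (w : Verma K c h) (j : ℤ) : Submodule K (Verma K c h) :=
  Submodule.span K {y | ∃ l : List ℕ, (∀ i ∈ l, 0 < i) ∧ (l.sum : ℤ) = j ∧ y = mono K l • w}

theorem vermaDeg_eq (k : ℕ) : vermaDeg K c h k = Sg (hwv K c h) k := by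
  unfold vermaDeg Sg mono
  congr 1
  ext y
  simp only [Set.mem_ofPred_eq, Nat.cast_inj]

theorem mono_mem_Sg (w : Verma K c h) {l : List ℕ} (hl : ∀ i ∈ l, 0 < i) {j : ℤ} (hj : (l.sum : ℤ) = j) :
    mono K l • w ∈ Sg w j := Submodule.subset_span ⟨l, hl, hj, rfl⟩

theorem UL_neg_mem_Sg (w : Verma K c h) {i : ℕ} (hi : 0 < i) {j : ℤ} {y : Verma K c h} (hy : y ∈ Sg w j) :
    UL K (-(i : ℤ)) • y ∈ Sg w (j + i) := by
  unfold Sg at hy
  induction hy using Submodule.span_induction with
  | mem y hy =>
    obtain ⟨l, hl, hj, rfl⟩ := hy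
    rw [smul_smul, ← mono_cons]
    apply mono_mem_Sg
    · intro t ht
      rcases List.mem_cons.mp ht with rfl | ht
      · exact hi
      · exact hl t ht
    · simp [← hj, add_comm]
  | zero => rw [smul_zero]; exact Submodule.zero_mem _
  | add x y _ _ hx hy => rw [smul_add]; exact Submodule.add_mem _ hx hy
  | smul a x _ hx => rw [smul_comm]; exact Submodule.smul_mem _ _ hx

theorem Sg_UL (a : K) (w : Verma K c h) (hpos : ∀ n : ℤ, 0 < n → UL K n • w = 0)
    (h0 : UL K 0 • w = a • w) (l : List ℕ) (hl : ∀ i ∈ l, 0 < i) :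
    ∀ n : ℤ, UL K n • mono K l • w ∈ Sg w (l.sum - n) := by
  induction l with
  | nil =>
    intro n
    rcases lt_trichotomy n 0 with hn | hn | hn
    · obtain ⟨i, rfl⟩ : ∃ i : ℕ, n = -(i : ℤ) := ⟨(-n).toNat, by omega⟩
      rw [smul_smul, ← mono_cons]
      apply mono_mem_Sg
      · intro t ht; simp at ht; omega
      · simp
    · subst hn
      rw [mono_nil, one_smul, h0]
      apply Submodule.smul_mem
      have := mono_mem_Sg w (l := []) (by simp) (j := 0) (by simp)
      rw [mono_nil, one_smul] at this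
      simpa using this
    · rw [mono_nil, one_smul, hpos n hn]
      exact Submodule.zero_mem _
  | cons i l ih =>
    intro n
    have hi : 0 < i := hl i (by simp)
    have hl' : ∀ t ∈ l, 0 < t := fun t ht => hl t (by simp [ht])
    rcases lt_or_ge n 0 with hn | hn
    · obtain ⟨k, rfl⟩ : ∃ i : ℕ, n = -(i : ℤ) := ⟨(-n).toNat, by omega⟩
      rw [smul_smul, ← mono_cons]
      apply mono_mem_Sg
      · intro t ht
        rcases List.mem_cons.mp ht with rfl | ht
        · omega
        · exact hl t ht
      · simp; ring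
    · rw [mono_cons, ← smul_smul, UL_comm]
      apply Submodule.add_mem
      · apply Submodule.add_mem
        · have := UL_neg_mem_Sg w hi (ih hl' n)
          convert this using 2
          simp; ring
        · apply Submodule.smul_mem
          have := ih hl' (n + -(i : ℤ))
          convert this using 2
          simp; ring
      · split_ifs with hni
        · apply Submodule.smul_mem
          apply mono_mem_Sg _ hl'
          simp; omega
        · exact Submodule.zero_mem _

theorem Sg_neg (w : Verma K c h) {j : ℤ} (hj : j < 0) : Sg w j = ⊥ := by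
  unfold Sg
  rw [Submodule.span_eq_bot]
  rintro y ⟨l, _, hl, _⟩
  omega

theorem Sg_UL' (a : K) (w : Verma K c h) (hpos : ∀ n : ℤ, 0 < n → UL K n • w = 0)
    (h0 : UL K 0 • w = a • w) (n : ℤ) {j : ℤ} {y : Verma K c h} (hy : y ∈ Sg w j) :
    UL K n • y ∈ Sg w (j - n) := by
  unfold Sg at hy
  induction hy using Submodule.span_induction with
  | mem y hy =>
    obtain ⟨l, hl, hj, rfl⟩ := hy
    rw [← hj]
    exact Sg_UL a w hpos h0 l hl n
  | zero => rw [smul_zero]; exact Submodule.zero_mem _
  | add x y _ _ hx hy => rw [smul_add]; exact Submodule.add_mem _ hx hy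
  | smul a x _ hx => rw [smul_comm]; exact Submodule.smul_mem _ _ hx

theorem Sg_le_iSup (w : Verma K c h) (j : ℤ) : Sg w j ≤ ⨆ k : ℕ, Sg w (k : ℤ) := by
  rcases lt_or_ge j 0 with hj | hj
  · rw [Sg_neg w hj]; exact bot_le
  · obtain ⟨k, rfl⟩ := Int.eq_ofNat_of_zero_le hj
    exact le_iSup (fun k : ℕ => Sg w (k : ℤ)) k

/-- the sum of all `Sg w k` is stable under the enveloping algebra -/
theorem iSup_Sg_stable (a : K) (w : Verma K c h) (hpos : ∀ n : ℤ, 0 < n → UL K n • w = 0)
    (h0 : UL K 0 • w = a • w) (x : U K) :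
    ∀ y ∈ ⨆ k : ℕ, Sg w (k : ℤ), x • y ∈ ⨆ k : ℕ, Sg w (k : ℤ) := by
  induction x using U_induction with
  | hs a => intro y hy; rw [algebraMap_smul]; exact Submodule.smul_mem _ _ hy
  | hmul x x' hx hx' => intro y hy; rw [← smul_smul]; exact hx _ (hx' _ hy)
  | hadd x x' hx hx' => intro y hy; rw [add_smul]; exact Submodule.add_mem _ (hx _ hy) (hx' _ hy)
  | hC => intro y hy; rw [UC_smul]; exact Submodule.smul_mem _ _ hy
  | hL n =>
    intro y hy
    induction hy using Submodule.iSup_induction' with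
    | mem k y hy => exact Sg_le_iSup w _ (Sg_UL' a w hpos h0 n hy)
    | zero => simp
    | add y z _ _ hy hz => rw [smul_add]; exact Submodule.add_mem _ hy hz

theorem self_mem_Sg (w : Verma K c h) : w ∈ Sg w 0 := by
  have := mono_mem_Sg w (l := []) (by simp) (j := 0) (by simp)
  rwa [mono_nil, one_smul] at this

theorem smul_mem_iSup (a : K) (w : Verma K c h) (hpos : ∀ n : ℤ, 0 < n → UL K n • w = 0)
    (h0 : UL K 0 • w = a • w) (x : U K) : x • w ∈ ⨆ k : ℕ, Sg w (k : ℤ) :=
  iSup_Sg_stable a w hpos h0 x w (Sg_le_iSup w 0 (self_mem_Sg w))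

end Modules

end Pool.Agent.Results.MP_b4de2f_al.Disproof
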