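import Pool.Agent.Helper9.Vir.V5

set_option autoImplicit false

namespace Pool.Agent.Results.MP_b4de2f_al.Disproof

open Finsupp

section Modules

variable {K : Type*} [Field K] {c h : K}

theorem vermaDeg_mono_smul (l : List ℕ) (hl : ∀ i ∈ l, 0 < i) (d : ℕ) (w : Verma K c h)
    (hw : w ∈ vermaDeg K c h d) : mono K l • w ∈ vermaDeg K c h (l.sum + d) := by
  rw [vermaDeg_eq] at *
  unfold Sg at hw
  induction hw using Submodule.span_induction with
  | mem y hy =>
    obtain ⟨l', hl', hj, rfl⟩ := hy
    rw [smul_smul, ← mono_append]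
    apply mono_mem_Sg
    · intro t ht
      rcases List.mem_append.mp ht with ht | ht
      · exact hl t ht
      · exact hl' t ht
    · rw [List.sum_append, Nat.cast_add, hj, Nat.cast_add]
  | zero => rw [smul_zero]; exact Submodule.zero_mem _
  | add x y _ _ hx hy => rw [smul_add]; exact Submodule.add_mem _ hx hy
  | smul a x _ hx => rw [smul_comm]; exact Submodule.smul_mem _ _ hx

theorem Sg_le_vermaDeg (d : ℕ) (w : Verma K c h) (hw : w ∈ vermaDeg K c h d) (k : ℕ) :
    Sg w (k : ℤ) ≤ vermaDeg K c h (k + d) := by
  unfold Sg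
  rw [Submodule.span_le]
  rintro y ⟨l, hl, hj, rfl⟩
  have := vermaDeg_mono_smul l hl d w hw
  have e : l.sum = k := by exact_mod_cast hj
  rw [e] at this
  exact this

theorem phi_vermaDeg (k : ℕ) (hk : 0 < k) (w : Verma K c h) (hw : w ∈ vermaDeg K c h k) :
    phi c h w = 0 := by
  unfold vermaDeg at hw
  induction hw using Submodule.span_induction with
  | mem y hy =>
    obtain ⟨l, hl, hj, rfl⟩ := hy
    cases l with
    | nil => simp at hj; omega
    | cons i l =>
      rw [List.map_cons, List.prod_cons, ← smul_smul]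
      apply phi_neg
      have := hl i (by simp)
      omega
  | zero => simp
  | add x y _ _ hx hy => rw [map_add, hx, hy, add_zero]
  | smul a x _ hx => rw [map_smul, hx, smul_zero]

theorem UL_zero_vermaDeg (d : ℕ) (w : Verma K c h) (hw : w ∈ vermaDeg K c h d) :
    UL K 0 • w = (h + d) • w := by
  have main : ∀ l : List ℕ, UL K 0 • mono K l • hwv K c h = (h + (l.sum : ℕ)) • mono K l • hwv K c h := by
    intro l
    induction l with
    | nil => simp [mono_nil, UL_zero_hwv]
    | cons i l ih =>
      rw [mono_cons, ← smul_smul, UL_comm, ih, zero_add]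
      have : (if -(i : ℤ) = 0 then (psi K 0 * c) • mono K l • hwv K c h else 0) = 0 := by
        split_ifs
        · simp [psi, binom3]
        · rfl
      rw [this, add_zero, List.sum_cons, smul_comm (UL K (-(i : ℤ)))]
      generalize UL K (-(i : ℤ)) • mono K l • hwv K c h = y
      push_cast
      module
  rw [vermaDeg_eq] at hw
  unfold Sg at hw
  induction hw using Submodule.span_induction with
  | mem y hy =>
    obtain ⟨l, hl, hj, rfl⟩ := hy
    have e : l.sum = d := by exact_mod_cast hj
    rw [main, e]
  | zero => simp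
  | add x y _ _ hx hy => rw [smul_add, hx, hy, smul_add]
  | smul a x _ hx => rw [smul_comm, hx, smul_comm]

theorem UL_pos_of_one_two (h2 : (2 : K) ≠ 0) (w : Verma K c h) (hw1 : UL K 1 • w = 0)
    (hw2 : UL K 2 • w = 0) : ∀ n : ℕ, 0 < n → UL K (n : ℤ) • w = 0 := by
  intro n
  induction n using Nat.strong_induction_on with
  | _ n ih =>
    intro hn
    rcases Nat.lt_or_ge n 3 with h3 | h3
    · interval_cases n
      · exact_mod_cast hw1
      · exact_mod_cast hw2
    · have a1 := ih (n - 1) (by omega) (by omega)
      have a2 := ih (n - 2) (by omega) (by omega)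
      have c1 := UL_comm c h (((n - 1 : ℕ) : ℤ)) 1 w
      have c2 := UL_comm c h (((n - 2 : ℕ) : ℤ)) 2 w
      rw [hw1, a1, smul_zero, smul_zero, zero_add, if_neg (by omega), add_zero] at c1
      rw [hw2, a2, smul_zero, smul_zero, zero_add, if_neg (by omega), add_zero] at c2
      have e1 : ((n - 1 : ℕ) : ℤ) + 1 = n := by omega
      have e2 : ((n - 2 : ℕ) : ℤ) + 2 = n := by omega
      rw [e1] at c1
      rw [e2] at c2
      have e3 : (((n - 1 : ℕ) : ℤ) - 1) = (((n - 2 : ℕ) : ℤ) - 2) + 2 := by omega
      rw [e3] at c1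
      generalize UL K (n : ℤ) • w = y at *
      have c3 : (2 : K) • y = 0 := by
        have : (2 : K) • y = (((((n - 2 : ℕ) : ℤ) - 2) + 2 : ℤ) : K) • y
          - ((((n - 2 : ℕ) : ℤ) - 2 : ℤ) : K) • y := by
          push_cast; module
        rw [this, ← c1, ← c2, sub_zero]
      exact (smul_eq_zero.mp c3).resolve_left h2

/-- A homogeneous vector of positive degree killed by `L 1` and `L 2` dies in the simple quotient. -/
theorem sing_mem_max (h2 : (2 : K) ≠ 0) (d : ℕ) (hd : 0 < d) (w : Verma K c h)
    (hw : w ∈ vermaDeg K c h d) (hw1 : UL K 1 • w = 0) (hw2 : UL K 2 • w = 0) :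
    w ∈ maxGraded K c h := by
  have hpos : ∀ n : ℤ, 0 < n → UL K n • w = 0 := by
    intro n hn
    obtain ⟨m, rfl⟩ := Int.eq_ofNat_of_zero_le hn.le
    exact UL_pos_of_one_two h2 w hw1 hw2 m (by omega)
  have h0 := UL_zero_vermaDeg d w hw
  have key : ∀ y ∈ Submodule.span (U K) {w}, y ∈ ⨆ k : ℕ, Sg w (k : ℤ) := by
    intro y hy
    obtain ⟨x, rfl⟩ := Submodule.mem_span_singleton.mp hy
    exact smul_mem_iSup _ w hpos h0 x
  have hle : ∀ k : ℕ, Sg w (k : ℤ) ≤ (Submodule.span (U K) {w}).restrictScalars K ⊓ vermaDeg K c h (k + d) := by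
    intro k
    refine le_inf ?_ (Sg_le_vermaDeg d w hw k)
    unfold Sg
    rw [Submodule.span_le]
    rintro y ⟨l, hl, hj, rfl⟩
    exact Submodule.smul_mem _ _ (Submodule.mem_span_singleton_self w)
  have hN : Submodule.span (U K) {w} ≤ maxGraded K c h := by
    apply le_sSup
    constructor
    · intro y hy
      have h1 := key y hy
      have h3 : (⨆ k : ℕ, Sg w (k : ℤ)) ≤ ⨆ k : ℕ, ((Submodule.span (U K) {w}).restrictScalars K ⊓ vermaDeg K c h k) := by
        apply iSup_le
        intro k
        exact (hle k).trans (le_iSup (fun k : ℕ => ((Submodule.span (U K) {w}).restrictScalars K ⊓ vermaDeg K c h k)) (k + d))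
      exact h3 h1
    · intro hv
      have h1 := key _ hv
      have h3 : (⨆ k : ℕ, Sg w (k : ℤ)) ≤ LinearMap.ker (phi c h) := by
        apply iSup_le
        intro k y hy
        exact phi_vermaDeg (k + d) (by omega) y (Sg_le_vermaDeg d w hw k hy)
      have h4 := h3 h1
      rw [LinearMap.mem_ker, phi_hwv] at h4
      exact one_ne_zero h4
  exact hN (Submodule.mem_span_singleton_self w)

/-- Every element of `maxGraded` is killed by all functionals `phi (x • _)`. -/
theorem phi_of_mem_max (w : Verma K c h) (hw : w ∈ maxGraded K c h) (x : U K) :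
    phi c h (x • w) = 0 := by
  let N0 : Submodule (U K) (Verma K c h) :=
    { carrier := {w | ∀ x : U K, phi c h (x • w) = 0}
      add_mem' := by
        intro a b ha hb x
        rw [smul_add, map_add, ha x, hb x, add_zero]
      zero_mem' := by intro x; simp
      smul_mem' := by
        intro y a ha x
        rw [smul_smul]; exact ha _ }
  have : maxGraded K c h ≤ N0 := by
    apply sSup_le
    rintro N ⟨hN, hv⟩ y hy x
    have h1 := hN _ (Submodule.smul_mem N x hy)
    have h2 : (⨆ k : ℕ, (N.restrictScalars K ⊓ vermaDeg K c h k)) ≤ LinearMap.ker (phi c h) := by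
      apply iSup_le
      rintro k z ⟨hz1, hz2⟩
      rcases Nat.eq_zero_or_pos k with hk | hk
      · subst hk
        have : ∃ a : K, z = a • hwv K c h := by
          have hz2' : z ∈ vermaDeg K c h 0 := hz2
          have h3 : vermaDeg K c h 0 ≤ Submodule.span K {hwv K c h} := by
            unfold vermaDeg
            rw [Submodule.span_le]
            rintro y ⟨l, hl, hj, rfl⟩
            cases l with
            | nil => simp [Submodule.mem_span_singleton_self]
            | cons i l =>
              have := hl i (by simp)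
              simp at hj; omega
          obtain ⟨a, ha⟩ := Submodule.mem_span_singleton.mp (h3 hz2')
          exact ⟨a, ha.symm⟩
        obtain ⟨a, rfl⟩ := this
        by_cases ha : a = 0
        · simp [ha]
        · exfalso
          apply hv
          have : hwv K c h = a⁻¹ • (a • hwv K c h) := by rw [smul_smul, inv_mul_cancel₀ ha, one_smul]
          rw [this]
          exact Submodule.smul_mem (N.restrictScalars K) _ hz1
      · exact phi_vermaDeg k hk z hz2
    exact h2 h1
  exact this hw x

end Modules

end Pool.Agent.Results.MP_b4de2f_al.Disproof
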