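import Pool.Agent.Helper9.Vir.V6

set_option autoImplicit false

namespace Pool.Agent.Results.MP_b4de2f_al.Disproof

open Finsupp

section Table

variable {K : Type*} [Field K] (c h : K)

theorem psi_zero : psi K 0 = 0 := by simp [psi, binom3]
theorem psi_one : psi K 1 = 0 := by simp [psi, binom3]
theorem psi_two : psi K 2 = 1 / 2 := by norm_num [psi, binom3]

/-- commuting `L 1` past `L (-i)` -/
theorem L1_comm (i : ℕ) (w : Verma K c h) : UL K 1 • UL K (-(i : ℤ)) • w =
    UL K (-(i : ℤ)) • UL K 1 • w + ((1 : K) + i) • UL K (1 - i) • w := by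
  rw [UL_comm]
  have : (if (1 : ℤ) + -(i : ℤ) = 0 then (psi K 1 * c) • w else 0) = 0 := by
    rw [psi_one]; simp
  rw [this, add_zero]
  push_cast
  rw [sub_neg_eq_add, sub_eq_add_neg]

/-- commuting `L 2` past `L (-i)` -/
theorem L2_comm (i : ℕ) (w : Verma K c h) : UL K 2 • UL K (-(i : ℤ)) • w =
    UL K (-(i : ℤ)) • UL K 2 • w + ((2 : K) + i) • UL K (2 - i) • w +
    (if i = 2 then (c / 2) • w else 0) := by
  rw [UL_comm]
  have : (if (2 : ℤ) + -(i : ℤ) = 0 then (psi K 2 * c) • w else 0) = (if i = 2 then (c / 2) • w else 0) := by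
    rw [psi_two]
    by_cases hi : i = 2
    · subst hi; simp [div_eq_inv_mul]
    · rw [if_neg (by omega), if_neg hi]
  rw [this]
  push_cast
  rw [sub_neg_eq_add, sub_eq_add_neg]

/-- commuting `L 0` past `L (-i)` -/
theorem L0_comm (i : ℕ) (w : Verma K c h) : UL K 0 • UL K (-(i : ℤ)) • w =
    UL K (-(i : ℤ)) • UL K 0 • w + (i : K) • UL K (-(i : ℤ)) • w := by
  rw [UL_comm]
  have : (if (0 : ℤ) + -(i : ℤ) = 0 then (psi K 0 * c) • w else 0) = 0 := by
    rw [psi_zero]; simp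
  rw [this, add_zero, zero_add]
  push_cast
  rw [sub_neg_eq_add, zero_add]

/-- commuting `L (-1)` past `L (-i)` -/
theorem Lm1_comm (i : ℕ) (hi : 0 < i) (w : Verma K c h) : UL K (-(1 : ℕ) : ℤ) • UL K (-(i : ℤ)) • w =
    UL K (-(i : ℤ)) • UL K (-(1 : ℕ) : ℤ) • w + ((i : K) - 1) • UL K (-((i + 1 : ℕ) : ℤ)) • w := by
  rw [UL_comm, if_neg (by omega), add_zero]
  have e : (-(1 : ℕ) : ℤ) + -(i : ℤ) = -((i + 1 : ℕ) : ℤ) := by push_cast; ring
  rw [e]
  push_cast
  congr 2
  ring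

/-- the vectors `L(-a) L(-b) ... v` -/
noncomputable def E (l : List ℕ) : Verma K c h := mono K l • hwv K c h

theorem E_nil : E c h [] = hwv K c h := by simp [E, mono_nil]
theorem E_cons (i : ℕ) (l : List ℕ) : UL K (-(i : ℤ)) • E c h l = E c h (i :: l) := by
  unfold E; rw [smul_smul, ← mono_cons]

theorem L1_E (i : ℕ) (l : List ℕ) : UL K 1 • E c h (i :: l) =
    UL K (-(i : ℤ)) • UL K 1 • E c h l + ((1 : K) + i) • UL K (1 - i) • E c h l := by
  rw [← E_cons, L1_comm]

theorem L2_E (i : ℕ) (l : List ℕ) : UL K 2 • E c h (i :: l) =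
    UL K (-(i : ℤ)) • UL K 2 • E c h l + ((2 : K) + i) • UL K (2 - i) • E c h l +
    (if i = 2 then (c / 2) • E c h l else 0) := by
  rw [← E_cons, L2_comm]

theorem L1_nil : UL K 1 • E c h [] = 0 := by rw [E_nil]; exact UL_pos_hwv c h (by norm_num)
theorem L2_nil : UL K 2 • E c h [] = 0 := by rw [E_nil]; exact UL_pos_hwv c h (by norm_num)

theorem L0_E (l : List ℕ) : UL K 0 • E c h l = (h + (l.sum : ℕ)) • E c h l := by
  induction l with
  | nil => rw [E_nil, UL_zero_hwv]; simp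
  | cons i l ih =>
    rw [← E_cons, L0_comm, ih, smul_comm (UL K (-(i : ℤ)))]
    generalize UL K (-(i : ℤ)) • E c h l = y
    rw [List.sum_cons]
    push_cast
    module

theorem e0 : (1 - (1 : ℕ) : ℤ) = 0 := by norm_num
theorem e1 : (1 - (2 : ℕ) : ℤ) = -(1 : ℕ) := by norm_num
theorem e2 : (1 - (3 : ℕ) : ℤ) = -(2 : ℕ) := by norm_num
theorem e3 : (1 - (4 : ℕ) : ℤ) = -(3 : ℕ) := by norm_num
theorem f0 : (2 - (1 : ℕ) : ℤ) = 1 := by norm_num
theorem f1 : (2 - (2 : ℕ) : ℤ) = 0 := by norm_num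
theorem f2 : (2 - (3 : ℕ) : ℤ) = -(1 : ℕ) := by norm_num
theorem f3 : (2 - (4 : ℕ) : ℤ) = -(2 : ℕ) := by norm_num

theorem L1_1 : UL K 1 • E c h [1] = (2 * h) • E c h [] := by
  rw [L1_E, L1_nil, smul_zero, e0, L0_E, smul_smul, zero_add]
  congr 1; simp only [List.sum_nil]; push_cast; ring

theorem L2_1 : UL K 2 • E c h [1] = 0 := by
  rw [L2_E, L2_nil, smul_zero, f0, L1_nil]; simp

theorem L1_2 : UL K 1 • E c h [2] = (3 : K) • E c h [1] := by
  rw [L1_E, L1_nil, smul_zero, e1, E_cons, zero_add]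
  congr 1; push_cast; ring

theorem L2_2 : UL K 2 • E c h [2] = (4 * h + c / 2) • E c h [] := by
  rw [L2_E, L2_nil, smul_zero, f1, L0_E, smul_smul, zero_add, if_pos rfl, ← add_smul]
  congr 1; simp only [List.sum_nil]; push_cast; ring

theorem Lm1_2 : E c h [1, 2] = E c h [2, 1] + E c h [3] := by
  have := Lm1_comm c h 2 (by norm_num) (E c h [])
  rw [E_cons, E_cons, E_cons, E_cons, E_cons] at this
  rw [this]; norm_num

theorem L1_11 : UL K 1 • E c h [1, 1] = (4 * h + 2) • E c h [1] := by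
  rw [L1_E, L1_1, smul_comm, E_cons, e0, L0_E, smul_smul, ← add_smul]
  congr 1; push_cast; simp; ring

theorem L2_11 : UL K 2 • E c h [1, 1] = (6 * h) • E c h [] := by
  rw [L2_E, L2_1, smul_zero, f0, L1_1, smul_smul, zero_add, if_neg (by norm_num), add_zero]
  congr 1; push_cast; ring

theorem L1_3 : UL K 1 • E c h [3] = (4 : K) • E c h [2] := by
  rw [L1_E, L1_nil, smul_zero, e2, E_cons, zero_add]
  congr 1; push_cast; ring

theorem L2_3 : UL K 2 • E c h [3] = (5 : K) • E c h [1] := by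
  rw [L2_E, L2_nil, smul_zero, f2, E_cons, zero_add, if_neg (by norm_num), add_zero]
  congr 1; push_cast; ring

theorem L1_21 : UL K 1 • E c h [2, 1] = (3 : K) • E c h [1, 1] + (2 * h) • E c h [2] := by
  rw [L1_E, L1_1, smul_comm, E_cons, e1, E_cons, add_comm]
  congr 2; push_cast; ring

theorem L2_21 : UL K 2 • E c h [2, 1] = (4 * h + 4 + c / 2) • E c h [1] := by
  rw [L2_E, L2_1, smul_zero, f1, L0_E, smul_smul, zero_add, if_pos rfl, ← add_smul]
  congr 1; push_cast; simp; ring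

theorem L1_111 : UL K 1 • E c h [1, 1, 1] = (6 * h + 6) • E c h [1, 1] := by
  rw [L1_E, L1_11, smul_comm, E_cons, e0, L0_E, smul_smul, ← add_smul]
  congr 1; push_cast; simp; ring

theorem L2_111 : UL K 2 • E c h [1, 1, 1] = (18 * h + 6) • E c h [1] := by
  rw [L2_E, L2_11, smul_comm, E_cons, f0, L1_11, smul_smul, ← add_smul, if_neg (by norm_num), add_zero]
  congr 1; push_cast; ring

theorem L1_4 : UL K 1 • E c h [4] = (5 : K) • E c h [3] := by
  rw [L1_E, L1_nil, smul_zero, e3, E_cons, zero_add]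
  congr 1; push_cast; ring

theorem L2_4 : UL K 2 • E c h [4] = (6 : K) • E c h [2] := by
  rw [L2_E, L2_nil, smul_zero, f3, E_cons, zero_add, if_neg (by norm_num), add_zero]
  congr 1; push_cast; ring

theorem L1_31 : UL K 1 • E c h [3, 1] = (4 : K) • E c h [2, 1] + (2 * h) • E c h [3] := by
  rw [L1_E, L1_1, smul_comm, E_cons, e2, E_cons, add_comm]
  congr 2; push_cast; ring

theorem L2_31 : UL K 2 • E c h [3, 1] = (5 : K) • E c h [1, 1] := by
  rw [L2_E, L2_1, smul_zero, f2, E_cons, zero_add, if_neg (by norm_num), add_zero]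
  congr 1; push_cast; ring

theorem L1_22 : UL K 1 • E c h [2, 2] = (6 : K) • E c h [2, 1] + (3 : K) • E c h [3] := by
  rw [L1_E, L1_2, smul_comm, E_cons, e1, E_cons, Lm1_2]
  push_cast
  module

theorem L2_22 : UL K 2 • E c h [2, 2] = (8 * h + 8 + (c / 2 + c / 2)) • E c h [2] := by
  rw [L2_E, L2_2, smul_comm, E_cons, f1, L0_E, smul_smul, if_pos rfl, ← add_smul, ← add_smul]
  congr 1; simp only [List.sum_cons, List.sum_nil]; push_cast; ring

theorem L1_211 : UL K 1 • E c h [2, 1, 1] = (3 : K) • E c h [1, 1, 1] + (4 * h + 2) • E c h [2, 1] := by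
  rw [L1_E, L1_11, smul_comm, E_cons, e1, E_cons, add_comm]
  congr 2; push_cast; ring

theorem L2_211 : UL K 2 • E c h [2, 1, 1] = (4 * h + 8 + c / 2) • E c h [1, 1] + (6 * h) • E c h [2] := by
  rw [L2_E, L2_11, smul_comm, E_cons, f1, L0_E, smul_smul, if_pos rfl]
  simp only [List.sum_cons, List.sum_nil]
  push_cast
  module

theorem L1_1111 : UL K 1 • E c h [1, 1, 1, 1] = (8 * h + 12) • E c h [1, 1, 1] := by
  rw [L1_E, L1_111, smul_comm, E_cons, e0, L0_E, smul_smul, ← add_smul]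
  congr 1; push_cast; simp; ring

theorem L2_1111 : UL K 2 • E c h [1, 1, 1, 1] = (36 * h + 24) • E c h [1, 1] := by
  rw [L2_E, L2_111, smul_comm, E_cons, f0, L1_111, smul_smul, ← add_smul, if_neg (by norm_num), add_zero]
  congr 1; push_cast; ring

end Table

end Pool.Agent.Results.MP_b4de2f_al.Disproof
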