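import Pool.Agent.Helper9.Vir.V7

set_option autoImplicit false

namespace Pool.Agent.Results.MP_b4de2f_al.Disproof

open Finsupp

section Final

variable {K : Type*} [Field K]

theorem list4 (l : List ℕ) (hl : ∀ i ∈ l, 0 < i) (hs : l.sum = 4) :
    l = [4] ∨ l = [3, 1] ∨ l = [1, 3] ∨ l = [2, 2] ∨ l = [2, 1, 1] ∨ l = [1, 2, 1] ∨
      l = [1, 1, 2] ∨ l = [1, 1, 1, 1] := by
  rcases l with _ | ⟨a, _ | ⟨b, _ | ⟨c, _ | ⟨d, _ | ⟨e, t⟩⟩⟩⟩⟩
  · simp at hs
  · simp at hs; subst hs; simp
  · simp at hs hl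
    have : a = 1 ∨ a = 2 ∨ a = 3 := by omega
    rcases this with rfl | rfl | rfl
    · have : b = 3 := by omega
      subst this; simp
    · have : b = 2 := by omega
      subst this; simp
    · have : b = 1 := by omega
      subst this; simp
  · simp at hs hl
    have : (a = 1 ∧ b = 1 ∧ c = 2) ∨ (a = 1 ∧ b = 2 ∧ c = 1) ∨ (a = 2 ∧ b = 1 ∧ c = 1) := by omega
    rcases this with ⟨rfl, rfl, rfl⟩ | ⟨rfl, rfl, rfl⟩ | ⟨rfl, rfl, rfl⟩ <;> simp
  · simp at hs hl
    have : a = 1 ∧ b = 1 ∧ c = 1 ∧ d = 1 := by omega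
    obtain ⟨rfl, rfl, rfl, rfl⟩ := this
    simp
  · simp at hs hl
    omega

variable (c h : K)

theorem E_13 : E c h [1, 3] = E c h [3, 1] + (2 : K) • E c h [4] := by
  have := Lm1_comm c h 3 (by norm_num) (E c h [])
  rw [E_cons, E_cons, E_cons, E_cons, E_cons] at this
  rw [this]; norm_num

theorem E_121 : E c h [1, 2, 1] = E c h [2, 1, 1] + E c h [3, 1] := by
  have := Lm1_comm c h 2 (by norm_num) (E c h [1])
  rw [E_cons, E_cons, E_cons, E_cons, E_cons] at this
  rw [this]; norm_num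

theorem E_112 : E c h [1, 1, 2] = E c h [2, 1, 1] + (2 : K) • E c h [3, 1] + (2 : K) • E c h [4] := by
  have : E c h [1, 1, 2] = UL K (-(1 : ℕ) : ℤ) • E c h [1, 2] := (E_cons c h 1 [1, 2]).symm
  rw [this, Lm1_2, smul_add, E_cons, E_cons, E_121, E_13]
  module

theorem E_mem (l : List ℕ) (hl : ∀ i ∈ l, 0 < i) : E c h l ∈ vermaDeg K c h l.sum :=
  Submodule.subset_span ⟨l, hl, rfl, rfl⟩

theorem deg4_le : vermaDeg K c h 4 ≤
    Submodule.span K {E c h [4], E c h [3, 1], E c h [2, 2], E c h [2, 1, 1], E c h [1, 1, 1, 1]} := by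
  set S := Submodule.span K {E c h [4], E c h [3, 1], E c h [2, 2], E c h [2, 1, 1], E c h [1, 1, 1, 1]} with hS
  have m4 : E c h [4] ∈ S := Submodule.subset_span (by simp)
  have m31 : E c h [3, 1] ∈ S := Submodule.subset_span (by simp)
  have m22 : E c h [2, 2] ∈ S := Submodule.subset_span (by simp)
  have m211 : E c h [2, 1, 1] ∈ S := Submodule.subset_span (by simp)
  have m1111 : E c h [1, 1, 1, 1] ∈ S := Submodule.subset_span (by simp)
  unfold vermaDeg
  rw [Submodule.span_le]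
  rintro y ⟨l, hl, hs, rfl⟩
  change E c h l ∈ S
  rcases list4 l hl hs with rfl | rfl | rfl | rfl | rfl | rfl | rfl | rfl
  · exact m4
  · exact m31
  · rw [E_13]; exact S.add_mem m31 (S.smul_mem _ m4)
  · exact m22
  · exact m211
  · rw [E_121]; exact S.add_mem m211 m31
  · rw [E_112]; exact S.add_mem (S.add_mem m211 (S.smul_mem _ m31)) (S.smul_mem _ m4)
  · exact m1111

section char23

variable (F : Type*) [Field F] [CharP F 23]

theorem h23 : (23 : F) = 0 := by
  have := CharP.cast_eq_zero F 23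
  exact_mod_cast this

theorem two_ne : (2 : F) ≠ 0 := by
  intro h
  have : (1 : F) = 0 := by linear_combination h23 F - 11 * h
  exact one_ne_zero this

theorem five_ne : (5 : F) ≠ 0 := by
  intro h
  have : (1 : F) = 0 := by linear_combination 2 * h23 F - 9 * h
  exact one_ne_zero this

theorem cc_F : cc F 3 = 3 := by
  unfold cc
  have h2 := two_ne F
  have h5 := five_ne F
  have h20 : (((3 : ℕ) : F) + 1) * (((3 : ℕ) : F) + 2) = 2 * 2 * 5 := by push_cast; ring
  rw [h20]
  field_simp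
  linear_combination (-2 : F) * h23 F

theorem hh_F : hh F 3 3 2 = 19 := by
  unfold hh
  have h2 := two_ne F
  have h5 := five_ne F
  have h80 : 4 * (((3 : ℕ) : F) + 1) * (((3 : ℕ) : F) + 2) = 2 * 2 * 2 * 2 * 5 := by push_cast; ring
  rw [h80]
  push_cast
  field_simp
  linear_combination (-64 : F) * h23 F

theorem half_three : (3 : F) / 2 = 13 := by
  have h2 := two_ne F
  field_simp
  linear_combination (-1 : F) * h23 F

end char23

end Final

end Pool.Agent.Results.MP_b4de2f_al.Disproof
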