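import Pool.Agent.Helper9.Vir.V8

set_option autoImplicit false

namespace Pool.Agent.Results.MP_b4de2f_al.Disproof

open Finsupp

section Final

section char23

variable (F : Type*) [Field F] [CharP F 23]

theorem u3_mem : E (3 : F) 19 [1, 1, 1] + (6 : F) • E (3 : F) 19 [2, 1] + (12 : F) • E (3 : F) 19 [3]
    ∈ maxGraded F 3 19 := by
  apply sing_mem_max (two_ne F) 3 (by norm_num)
  · refine Submodule.add_mem _ (Submodule.add_mem _ ?_ (Submodule.smul_mem _ _ ?_)) (Submodule.smul_mem _ _ ?_)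
    · exact E_mem 3 19 [1, 1, 1] (by simp)
    · exact E_mem 3 19 [2, 1] (by simp)
    · exact E_mem 3 19 [3] (by simp)
  · rw [smul_add, smul_add, smul_comm (UL F 1), smul_comm (UL F 1), L1_111, L1_21, L1_3]
    have h := h23 F
    match_scalars
    · linear_combination 6 * h
    · linear_combination 12 * h
  · rw [smul_add, smul_add, smul_comm (UL F 2), smul_comm (UL F 2), L2_111, L2_21, L2_3, half_three]
    have h := h23 F
    match_scalars
    · linear_combination 42 * h

theorem w4_mem : E (3 : F) 19 [1, 1, 1, 1] - E (3 : F) 19 [2, 1, 1] + (4 : F) • E (3 : F) 19 [2, 2]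
    + (2 : F) • E (3 : F) 19 [3, 1] + (10 : F) • E (3 : F) 19 [4] ∈ maxGraded F 3 19 := by
  apply sing_mem_max (two_ne F) 4 (by norm_num)
  · refine Submodule.add_mem _ (Submodule.add_mem _ (Submodule.add_mem _ (Submodule.sub_mem _ ?_ ?_)
      (Submodule.smul_mem _ _ ?_)) (Submodule.smul_mem _ _ ?_)) (Submodule.smul_mem _ _ ?_)
    · exact E_mem 3 19 [1, 1, 1, 1] (by simp)
    · exact E_mem 3 19 [2, 1, 1] (by simp)
    · exact E_mem 3 19 [2, 2] (by simp)
    · exact E_mem 3 19 [3, 1] (by simp)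
    · exact E_mem 3 19 [4] (by simp)
  · simp only [smul_add, smul_sub, smul_comm (UL F 1), L1_1111, L1_211, L1_22, L1_31, L1_4]
    have h := h23 F
    match_scalars
    · linear_combination 7 * h
    · linear_combination (-2) * h
    · linear_combination 6 * h
  · simp only [smul_add, smul_sub, smul_comm (UL F 2), L2_1111, L2_211, L2_22, L2_31, L2_4, half_three]
    have h := h23 F
    match_scalars
    · linear_combination 27 * h
    · linear_combination 30 * h

theorem upper : Module.finrank F (LDeg F (3 : F) 19 4) ≤ 3 := by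
  set π := (maxGraded F (3 : F) 19).mkQ.restrictScalars F with hπ
  have hker : ∀ w, w ∈ maxGraded F (3 : F) 19 → π w = 0 := by
    intro w hw
    rw [hπ]
    simpa using hw
  have h := h23 F
  -- relations
  have r1 : π (E (3 : F) 19 [1, 1, 1, 1]) = - ((6 : F) • π (E (3 : F) 19 [2, 1, 1]) +
      (18 : F) • π (E (3 : F) 19 [3, 1]) + (24 : F) • π (E (3 : F) 19 [4])) := by
    have h1 := Submodule.smul_mem _ (UL F (-(1 : ℕ) : ℤ)) (u3_mem F)
    rw [smul_add, smul_add, smul_comm (UL F _), smul_comm (UL F _), E_cons, E_cons, E_cons, E_121, E_13] at h1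
    have h2 := hker _ h1
    simp only [map_add, map_smul, smul_add] at h2
    rw [eq_neg_iff_add_eq_zero, ← h2]
    module
  have r2 : π (E (3 : F) 19 [2, 2]) = (42 : F) • π (E (3 : F) 19 [2, 1, 1]) +
      (96 : F) • π (E (3 : F) 19 [3, 1]) + (84 : F) • π (E (3 : F) 19 [4]) := by
    have h2 := hker _ (w4_mem F)
    simp only [map_add, map_smul, map_sub] at h2
    rw [r1] at h2
    rw [← sub_eq_zero]
    have h3 := congrArg (fun x => (6 : F) • x) h2
    simp only [smul_zero] at h3
    rw [← h3]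
    match_scalars
    · linear_combination (-1) * h
    · ring
    · ring
    · ring
  have hle : LDeg F (3 : F) 19 4 ≤ Submodule.span F (Set.range
      ![π (E (3 : F) 19 [4]), π (E (3 : F) 19 [3, 1]), π (E (3 : F) 19 [2, 1, 1])]) := by
    set S := Submodule.span F (Set.range
      ![π (E (3 : F) 19 [4]), π (E (3 : F) 19 [3, 1]), π (E (3 : F) 19 [2, 1, 1])]) with hS
    have m4 : π (E (3 : F) 19 [4]) ∈ S := Submodule.subset_span ⟨0, rfl⟩
    have m31 : π (E (3 : F) 19 [3, 1]) ∈ S := Submodule.subset_span ⟨1, rfl⟩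
    have m211 : π (E (3 : F) 19 [2, 1, 1]) ∈ S := Submodule.subset_span ⟨2, rfl⟩
    have m22 : π (E (3 : F) 19 [2, 2]) ∈ S := by
      rw [r2]
      exact S.add_mem (S.add_mem (S.smul_mem _ m211) (S.smul_mem _ m31)) (S.smul_mem _ m4)
    have m1111 : π (E (3 : F) 19 [1, 1, 1, 1]) ∈ S := by
      rw [r1]
      exact S.neg_mem (S.add_mem (S.add_mem (S.smul_mem _ m211) (S.smul_mem _ m31)) (S.smul_mem _ m4))
    unfold LDeg
    refine (Submodule.map_mono (deg4_le 3 19)).trans ?_
    rw [Submodule.map_span, Submodule.span_le]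
    rintro y ⟨x, hx, rfl⟩
    simp only [Set.mem_insert_iff, Set.mem_singleton_iff] at hx
    rcases hx with rfl | rfl | rfl | rfl | rfl
    · exact m4
    · exact m31
    · exact m22
    · exact m211
    · exact m1111
  haveI : Module.Finite F (Submodule.span F (Set.range
      ![π (E (3 : F) 19 [4]), π (E (3 : F) 19 [3, 1]), π (E (3 : F) 19 [2, 1, 1])])) :=
    FiniteDimensional.span_of_finite F (Set.finite_range _)
  refine (Submodule.finrank_mono hle).trans ?_
  have := finrank_range_le_card (R := F)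
    ![π (E (3 : F) 19 [4]), π (E (3 : F) 19 [3, 1]), π (E (3 : F) 19 [2, 1, 1])]
  simpa [Set.finrank] using this

end char23

section char0

variable {K : Type*} [Field K] (c h : K)

/-- a general vector of degree 4 -/
noncomputable def Y (a b d e : K) : Verma K c h :=
  a • E c h [4] + b • E c h [3, 1] + d • E c h [2, 2] + e • E c h [2, 1, 1]

theorem L1_Y (a b d e : K) : UL K 1 • Y c h a b d e =
    (5 * a + 2 * h * b + 3 * d) • E c h [3] + (4 * b + 6 * d + (4 * h + 2) * e) • E c h [2, 1] +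
    (3 * e) • E c h [1, 1, 1] := by
  unfold Y
  simp only [smul_add, smul_comm (UL K 1), L1_211, L1_22, L1_31, L1_4]
  module

theorem L2_Y (a b d e : K) : UL K 2 • Y c h a b d e =
    (6 * a + (8 * h + 8 + (c / 2 + c / 2)) * d + 6 * h * e) • E c h [2] +
    (5 * b + (4 * h + 8 + c / 2) * e) • E c h [1, 1] := by
  unfold Y
  simp only [smul_add, smul_comm (UL K 2), L2_211, L2_22, L2_31, L2_4]
  module

theorem phi_E_nil : phi c h (E c h []) = 1 := by rw [E_nil, phi_hwv]

theorem p22 (a b d e : K) : phi c h (UL K 2 • UL K 2 • Y c h a b d e) =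
    (6 * a + (8 * h + 8 + (c / 2 + c / 2)) * d + 6 * h * e) * (4 * h + c / 2) +
    (5 * b + (4 * h + 8 + c / 2) * e) * (6 * h) := by
  rw [L2_Y]
  simp only [smul_add, smul_comm (UL K 2), L2_2, L2_11, map_add, map_smul, phi_E_nil, smul_eq_mul, mul_one]

theorem p112 (a b d e : K) : phi c h (UL K 1 • UL K 1 • UL K 2 • Y c h a b d e) =
    (6 * a + (8 * h + 8 + (c / 2 + c / 2)) * d + 6 * h * e) * (3 * (2 * h)) +
    (5 * b + (4 * h + 8 + c / 2) * e) * ((4 * h + 2) * (2 * h)) := by
  rw [L2_Y]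
  simp only [smul_add, smul_comm (UL K 1), L1_2, L1_11, L1_1, map_add, map_smul, phi_E_nil, smul_eq_mul, mul_one]

theorem p121 (a b d e : K) : phi c h (UL K 1 • UL K 2 • UL K 1 • Y c h a b d e) =
    (5 * a + 2 * h * b + 3 * d) * (5 * (2 * h)) + (4 * b + 6 * d + (4 * h + 2) * e) * ((4 * h + 4 + c / 2) * (2 * h)) +
    (3 * e) * ((18 * h + 6) * (2 * h)) := by
  rw [L1_Y]
  simp only [smul_add, smul_comm (UL K 1), smul_comm (UL K 2), L2_3, L2_21, L2_111, L1_1, map_add, map_smul, phi_E_nil, smul_eq_mul, mul_one]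

theorem p1111 (a b d e : K) : phi c h (UL K 1 • UL K 1 • UL K 1 • UL K 1 • Y c h a b d e) =
    (5 * a + 2 * h * b + 3 * d) * (4 * (3 * (2 * h))) +
    (4 * b + 6 * d + (4 * h + 2) * e) * (3 * ((4 * h + 2) * (2 * h)) + 2 * h * (3 * (2 * h))) +
    (3 * e) * ((6 * h + 6) * ((4 * h + 2) * (2 * h))) := by
  rw [L1_Y]
  simp only [smul_add, smul_comm (UL K 1), L1_3, L1_21, L1_111, L1_2, L1_11, L1_1, map_add, map_smul, phi_E_nil, smul_eq_mul, mul_one]
  ring

theorem Y_mem_max [CharZero K] (a b d e : K) (hy : Y (7 / 10) (3 / 5) a b d e ∈ maxGraded K (7 / 10) (3 / 5)) :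
    a = 0 ∧ b = 0 ∧ d = 0 ∧ e = 0 := by
  have q1 := phi_of_mem_max _ hy (UL K 2 * UL K 2)
  have q2 := phi_of_mem_max _ hy (UL K 1 * (UL K 1 * UL K 2))
  have q3 := phi_of_mem_max _ hy (UL K 1 * (UL K 2 * UL K 1))
  have q4 := phi_of_mem_max _ hy (UL K 1 * (UL K 1 * (UL K 1 * UL K 1)))
  simp only [← smul_smul] at q1 q2 q3 q4
  rw [p22] at q1
  rw [p112] at q2
  rw [p121] at q3
  rw [p1111] at q4
  refine ⟨?_, ?_, ?_, ?_⟩
  · linear_combination (-104/207) * q1 + (155/207) * q2 + (235/207) * q3 + (-2825/4968) * q4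
  · linear_combination (64/621) * q1 + (-695/1242) * q2 + (215/1242) * q3 + (1075/14904) * q4
  · linear_combination (488/897) * q1 + (-1660/2691) * q2 + (-100/207) * q3 + (325/1242) * q4
  · linear_combination (-2120/8073) * q1 + (3425/8073) * q2 + (-50/621) * q3 + (-125/3726) * q4

theorem LDeg_finite (c h : K) : Module.Finite K (LDeg K c h 4) := by
  unfold LDeg
  have h1 : vermaDeg K c h 4 ≤ Submodule.span K
      {E c h [4], E c h [3, 1], E c h [2, 2], E c h [2, 1, 1], E c h [1, 1, 1, 1]} := deg4_le c h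
  haveI : Module.Finite K (Submodule.span K
      ({E c h [4], E c h [3, 1], E c h [2, 2], E c h [2, 1, 1], E c h [1, 1, 1, 1]} : Set (Verma K c h))) :=
    FiniteDimensional.span_of_finite K (Set.toFinite _)
  haveI : Module.Finite K (vermaDeg K c h 4) :=
    Submodule.finiteDimensional_of_le h1
  infer_instance

theorem lower [CharZero K] : 4 ≤ Module.finrank K (LDeg K (7 / 10 : K) (3 / 5) 4) := by
  haveI := LDeg_finite (7 / 10 : K) (3 / 5)
  set π := (maxGraded K (7 / 10 : K) (3 / 5)).mkQ.restrictScalars K with hπ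
  have hm : ∀ l, E (7 / 10 : K) (3 / 5) l ∈ vermaDeg K (7 / 10 : K) (3 / 5) 4 →
      π (E (7 / 10 : K) (3 / 5) l) ∈ LDeg K (7 / 10 : K) (3 / 5) 4 := by
    intro l hl
    unfold LDeg
    exact Submodule.mem_map_of_mem hl
  have m4 := hm [4] (E_mem _ _ [4] (by simp))
  have m31 := hm [3, 1] (E_mem _ _ [3, 1] (by simp))
  have m22 := hm [2, 2] (E_mem _ _ [2, 2] (by simp))
  have m211 := hm [2, 1, 1] (E_mem _ _ [2, 1, 1] (by simp))
  let v : Fin 4 → LDeg K (7 / 10 : K) (3 / 5) 4 := ![⟨_, m4⟩, ⟨_, m31⟩, ⟨_, m22⟩, ⟨_, m211⟩]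
  have hv : LinearIndependent K v := by
    rw [Fintype.linearIndependent_iff]
    intro g hg
    have hg' := congrArg (Subtype.val) hg
    simp only [Fin.sum_univ_four, v] at hg'
    have h0 : Y (7 / 10 : K) (3 / 5) (g 0) (g 1) (g 2) (g 3) ∈ maxGraded K (7 / 10) (3 / 5) := by
      have h1 : π (Y (7 / 10 : K) (3 / 5) (g 0) (g 1) (g 2) (g 3)) = 0 := by
        unfold Y
        simp only [map_add, map_smul]
        simpa using hg'
      rw [hπ] at h1
      simpa using h1
    obtain ⟨h1, h2, h3, h4⟩ := Y_mem_max _ _ _ _ h0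
    intro i
    fin_cases i <;> assumption
  simpa using hv.fintype_card_le_finrank

end char0

end Final

end Pool.Agent.Results.MP_b4de2f_al.Disproof
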